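import Pool.Agent.Helper29.DC.Grid

/-!
# The primitive Dirichlet characters of bounded level are almost orthogonal
-/

set_option autoImplicit false

namespace Pool.Agent.Helper29.DC

open Finset Filter Topology Pool.Agent.Helper29.QT Pool.Agent.Helper29.UT
open scoped ComplexConjugate

/-- The Dirichlet characters of all levels. -/
abbrev DI : Type := Σ q : ℕ, DirichletCharacter ℂ q

/-- The values. -/
noncomputable def psi (χ : DI) (n : ℕ) : ℂ := χ.2 (n : ZMod χ.1)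

lemma sum_periodic {f : ℕ → ℂ} {q : ℕ} (hf : ∀ n, f (q + n) = f n)
    (h0 : ∑ n ∈ range q, f n = 0) (k r : ℕ) :
    ∑ n ∈ range (q * k + r), f n = ∑ n ∈ range r, f n := by
  induction k with
  | zero => simp
  | succ k ih =>
    have h1 : q * (k + 1) + r = q + (q * k + r) := by ring
    rw [h1, Finset.sum_range_add, h0, zero_add, ← ih]
    exact Finset.sum_congr rfl fun n _ => hf n

lemma sum_range_char {q : ℕ} [NeZero q] (θ : DirichletCharacter ℂ q) :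
    ∑ n ∈ range q, θ (n : ZMod q) = ∑ a : ZMod q, θ a := by
  refine Finset.sum_nbij' (fun n => (n : ZMod q)) (fun a => a.val) ?_ ?_ ?_ ?_ ?_
  · intro _ _
    exact mem_univ _
  · intro a _
    exact mem_range.2 (ZMod.val_lt a)
  · intro n hn
    exact ZMod.val_natCast_of_lt (mem_range.1 hn)
  · intro a _
    exact ZMod.natCast_zmod_val a
  · intro n _
    rfl

lemma norm_sum_char {q : ℕ} [NeZero q] {θ : DirichletCharacter ℂ q} (hθ : θ ≠ 1) (N : ℕ) :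
    ‖∑ n ∈ Icc 1 N, θ (n : ZMod q)‖ ≤ q := by
  have hq : 0 < q := Nat.pos_of_ne_zero (NeZero.ne q)
  have h0 : ∑ n ∈ range q, θ (n : ZMod q) = 0 := by
    rw [sum_range_char]
    exact MulChar.sum_eq_zero_of_ne_one hθ
  have hper : ∀ n : ℕ, θ ((q + n : ℕ) : ZMod q) = θ (n : ZMod q) := by
    intro n
    congr 1
    rw [Nat.cast_add, ZMod.natCast_self, zero_add]
  have h1 := sum_periodic (f := fun n : ℕ => θ (n : ZMod q)) hper h0 ((N + 1) / q) ((N + 1) % q)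
  rw [Nat.div_add_mod] at h1
  have h2 : ∑ n ∈ range (N + 1), θ (n : ZMod q) = θ ((0 : ℕ) : ZMod q) +
      ∑ n ∈ Icc 1 N, θ (n : ZMod q) := by
    have h3 : range (N + 1) = insert 0 (Icc 1 N) := by
      ext n
      rw [Finset.mem_range, Finset.mem_insert, Finset.mem_Icc]
      omega
    rw [h3, Finset.sum_insert]
    rw [Finset.mem_Icc]
    omega
  have h3 : ∑ n ∈ Icc 1 N, θ (n : ZMod q) = ∑ n ∈ range ((N + 1) % q), θ (n : ZMod q) -
      θ ((0 : ℕ) : ZMod q) := by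
    rw [← h1, h2]
    ring
  rw [h3]
  have h4 : (N + 1) % q + 1 ≤ q := Nat.mod_lt _ hq
  have h5 : ‖∑ n ∈ range ((N + 1) % q), θ (n : ZMod q)‖ ≤ (((N + 1) % q : ℕ) : ℝ) := by
    refine (norm_sum_le _ _).trans ?_
    refine (Finset.sum_le_sum fun n _ => θ.norm_le_one _).trans ?_
    rw [Finset.sum_const, Finset.card_range, nsmul_eq_mul, mul_one]
  have h6 := θ.norm_le_one ((0 : ℕ) : ZMod q)
  have h7 : ((((N + 1) % q : ℕ) : ℝ)) + 1 ≤ q := by exact_mod_cast h4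
  calc _ ≤ ‖∑ n ∈ range ((N + 1) % q), θ (n : ZMod q)‖ + ‖θ ((0 : ℕ) : ZMod q)‖ := norm_sub_le _ _
    _ ≤ _ := by linarith

/-- The product of a character and the conjugate of another one. -/
lemma mul_conj_eq {q₁ q₂ : ℕ} (χ₁ : DirichletCharacter ℂ q₁) (χ₂ : DirichletCharacter ℂ q₂)
    (n : ℕ) : χ₁ (n : ZMod q₁) * conj (χ₂ (n : ZMod q₂)) =
      (DirichletCharacter.changeLevel (dvd_mul_right q₁ q₂) χ₁ *
        (DirichletCharacter.changeLevel (dvd_mul_left q₂ q₁) χ₂)⁻¹) (n : ZMod (q₁ * q₂)) := by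
  have e1 : (n : ZMod q₁) = ((n : ℤ) : ZMod q₁) := by rw [Int.cast_natCast]
  have e2 : (n : ZMod q₂) = ((n : ℤ) : ZMod q₂) := by rw [Int.cast_natCast]
  have e3 : (n : ZMod (q₁ * q₂)) = ((n : ℤ) : ZMod (q₁ * q₂)) := by rw [Int.cast_natCast]
  by_cases h : IsCoprime (n : ℤ) ((q₁ * q₂ : ℕ) : ℤ)
  · rw [MulChar.mul_apply, ← MulChar.star_apply', e3,
      DirichletCharacter.changeLevel_eq_cast_of_dvd' χ₁ _ h,
      DirichletCharacter.changeLevel_eq_cast_of_dvd' χ₂ _ h, ← e1, ← e2]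
    rfl
  · have h1 : (DirichletCharacter.changeLevel (dvd_mul_right q₁ q₂) χ₁ *
        (DirichletCharacter.changeLevel (dvd_mul_left q₂ q₁) χ₂)⁻¹) (n : ZMod (q₁ * q₂)) = 0 := by
      rw [e3]
      exact (DirichletCharacter.apply_eq_zero_iff _ _).2 h
    rw [h1]
    have h2 : ¬ IsCoprime (n : ℤ) (q₁ : ℤ) ∨ ¬ IsCoprime (n : ℤ) (q₂ : ℤ) := by
      by_contra h3
      push Not at h3
      apply h
      push_cast
      exact IsCoprime.mul_right h3.1 h3.2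
    rcases h2 with h2 | h2
    · rw [e1, (DirichletCharacter.apply_eq_zero_iff χ₁ _).2 h2, zero_mul]
    · rw [e2, (DirichletCharacter.apply_eq_zero_iff χ₂ _).2 h2, map_zero, mul_zero]

/-- Different primitive characters remain different. -/
lemma mul_inv_ne_one {q₁ q₂ : ℕ} (hq₁ : q₁ ≠ 0) (hq₂ : q₂ ≠ 0)
    {χ₁ : DirichletCharacter ℂ q₁} {χ₂ : DirichletCharacter ℂ q₂}
    (h1 : χ₁.IsPrimitive) (h2 : χ₂.IsPrimitive) (hne : (⟨q₁, χ₁⟩ : DI) ≠ ⟨q₂, χ₂⟩) :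
    DirichletCharacter.changeLevel (dvd_mul_right q₁ q₂) χ₁ *
        (DirichletCharacter.changeLevel (dvd_mul_left q₂ q₁) χ₂)⁻¹ ≠ 1 := by
  intro h
  have : NeZero (q₁ * q₂) := ⟨mul_ne_zero hq₁ hq₂⟩
  rw [mul_inv_eq_one] at h
  have h3 : q₁ = q₂ := by
    have e1 := DirichletCharacter.conductor_changeLevel χ₁ (dvd_mul_right q₁ q₂)
    have e2 := DirichletCharacter.conductor_changeLevel χ₂ (dvd_mul_left q₂ q₁)
    rw [h, e2] at e1
    rw [DirichletCharacter.isPrimitive_def] at h1 h2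
    rw [h1, h2] at e1
    exact e1.symm
  subst h3
  apply hne
  have h4 := DirichletCharacter.changeLevel_injective _ h
  rw [h4]

lemma pair_bound {χ₁ χ₂ : DI} (h1 : 1 ≤ χ₁.1) (h2 : 1 ≤ χ₂.1) (p1 : χ₁.2.IsPrimitive)
    (p2 : χ₂.2.IsPrimitive) (hne : χ₁ ≠ χ₂) (N : ℕ) :
    ‖∑ n ∈ Icc 1 N, psi χ₁ n * conj (psi χ₂ n)‖ ≤ (χ₁.1 : ℝ) * χ₂.1 := by
  obtain ⟨q₁, χ₁⟩ := χ₁
  obtain ⟨q₂, χ₂⟩ := χ₂
  have hq₁ : q₁ ≠ 0 := by
    have : 1 ≤ q₁ := h1
    omega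
  have hq₂ : q₂ ≠ 0 := by
    have : 1 ≤ q₂ := h2
    omega
  have : NeZero (q₁ * q₂) := ⟨mul_ne_zero hq₁ hq₂⟩
  have h3 := norm_sum_char (mul_inv_ne_one hq₁ hq₂ p1 p2 hne) N
  rw [Nat.cast_mul] at h3
  refine le_trans (le_of_eq ?_) h3
  congr 1
  refine Finset.sum_congr rfl fun n _ => ?_
  exact mul_conj_eq χ₁ χ₂ n

lemma card_DC (q : ℕ) (hq : 1 ≤ q) : Fintype.card (DirichletCharacter ℂ q) ≤ q := by
  have : NeZero q := ⟨by omega⟩
  rw [← Nat.card_eq_fintype_card,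
    DirichletCharacter.card_eq_totient_of_hasEnoughRootsOfUnity]
  exact Nat.totient_le q

/-- A finite set of primitive characters of level at most `Y`. -/
def PS (S : Finset DI) (Y : ℕ) : Prop := ∀ χ ∈ S, 1 ≤ χ.1 ∧ χ.1 ≤ Y ∧ χ.2.IsPrimitive

lemma PS.subset {S S' : Finset DI} {Y : ℕ} (h : PS S Y) (hS : S' ⊆ S) : PS S' Y :=
  fun χ hχ => h χ (hS hχ)

lemma card_PS {S : Finset DI} {Y : ℕ} (h : PS S Y) : S.card ≤ Y ^ 2 := by
  classical
  have h1 : S ⊆ (Icc 1 Y).sigma fun q => (univ : Finset (DirichletCharacter ℂ q)) := by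
    intro χ hχ
    rw [Finset.mem_sigma]
    exact ⟨Finset.mem_Icc.2 ⟨(h χ hχ).1, (h χ hχ).2.1⟩, mem_univ _⟩
  refine (Finset.card_le_card h1).trans ?_
  rw [Finset.card_sigma]
  calc ∑ q ∈ Icc 1 Y, (univ : Finset (DirichletCharacter ℂ q)).card ≤ ∑ q ∈ Icc 1 Y, Y := by
        refine Finset.sum_le_sum fun q hq => ?_
        rw [Finset.card_univ]
        exact (card_DC q (Finset.mem_Icc.1 hq).1).trans (Finset.mem_Icc.1 hq).2
    _ = Y ^ 2 := by
        rw [Finset.sum_const, Nat.card_Icc, Nat.add_sub_cancel, smul_eq_mul, sq]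

/-- The primitive characters form a family as required. -/
lemma PS.yf {S : Finset DI} {Y : ℕ} (h : PS S Y) : YF psi S Y := by
  refine ⟨⟨by positivity, ?_, ?_, ?_, ?_⟩, card_PS h⟩
  · intro χ _
    unfold psi
    rw [Nat.cast_one, map_one]
  · intro χ _ m n
    unfold psi
    rw [Nat.cast_mul, map_mul]
  · intro χ _ n
    exact χ.2.norm_le_one _
  · intro χ hχ χ' hχ' hne N
    obtain ⟨a1, a2, a3⟩ := h χ hχ
    obtain ⟨b1, b2, b3⟩ := h χ' hχ'
    refine (pair_bound a1 b1 a3 b3 hne N).trans ?_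
    have a2' : (χ.1 : ℝ) ≤ Y := by exact_mod_cast a2
    have b2' : (χ'.1 : ℝ) ≤ Y := by exact_mod_cast b2
    rw [sq]
    exact mul_le_mul a2' b2' (Nat.cast_nonneg _) (Nat.cast_nonneg _)

end Pool.Agent.Helper29.DC
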