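import Mathlib

set_option autoImplicit false

namespace Pool.Agent.Helper29.DC

/-- The average up to `T` of the numbers `β p φ` twisted by the Dirichlet character `χ`, over the
primes of degree one of the ring `R`, the kernels of the homomorphisms `φ` from `R` to the fields
with `p` elements. -/
noncomputable def charAvg {R : Type} [CommRing R] (T : ℕ) {q : ℕ} (χ : DirichletCharacter ℂ q)
    (β : ∀ p : ℕ, (R →+* ZMod p) → ℂ) : ℂ :=
  (∑ p ∈ (Finset.Icc 1 T).filter Nat.Prime,
    ∑ᶠ φ : R →+* ZMod p, χ (p : ZMod q) * β p φ * Real.log p / p) / T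

end Pool.Agent.Helper29.DC
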