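import Pool.Agent.Helper29.UT.Tr
import Pool.Agent.Helper29.QT.Geo

/-!
# Descent from infinitely many quadratic extensions
-/

set_option autoImplicit false

namespace Pool.Agent.Helper29.DC

open Finset MvPolynomial Filter Topology Pool.Agent.Helper29.QT Pool.Agent.Helper29.UT

variable {R : Type} [CommRing R] {d : ℕ} {M : ℝ}

/-- If the averages converge to the same limit over infinitely many quadratic extensions, then
they converge to this limit over the base. -/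
theorem descent (b : Module.Basis (Fin d) ℤ R) (β : ∀ p : ℕ, (R →+* ZMod p) → ℝ)
    (hM0 : 0 ≤ M) (hM : ∀ p : ℕ, p.Prime → ∀ φ : R →+* ZMod p, |β p φ| ≤ M * p)
    {A : Set ℤ} (hA : A.Infinite) {r : ℝ}
    (h : ∀ a ∈ A, Squarefree a ∧ Tendsto (fun T : ℕ => avg T (baseChange a β)) atTop (𝓝 r)) :
    Tendsto (fun T : ℕ => avg T β) atTop (𝓝 r) := by
  rw [Metric.tendsto_nhds]
  intro ε hε
  obtain ⟨n, hn⟩ := exists_nat_gt (63 * (d * M) ^ 2 / ε ^ 2)
  obtain ⟨N, hN⟩ : ∃ N : ℕ, N = n + 1 := ⟨_, rfl⟩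
  have hNn : (n : ℝ) ≤ N := by
    rw [hN]
    push_cast
    linarith
  have hN0 : (0 : ℝ) < N := by
    rw [hN]
    positivity
  obtain ⟨S, hSA, hSc⟩ := hA.exists_subset_card_eq N
  have hS : ∀ a ∈ S, a ∈ A := fun a ha => hSA (Finset.mem_coe.2 ha)
  have h1 := traces_weighted b β hM0 hM S (fun a ha => (h a (hS a ha)).1)
    (fun _ => 1 / (N : ℝ)) (δ := ε / 3) (by positivity)
  have h2 : d * M * Real.sqrt (7 * ∑ a ∈ S, (1 / (N : ℝ)) ^ 2) ≤ ε / 3 := by
    have e1 : ∑ a ∈ S, (1 / (N : ℝ)) ^ 2 = 1 / (N : ℝ) := by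
      rw [Finset.sum_const, hSc, nsmul_eq_mul]
      field_simp
    rw [e1]
    have e2 : (d * M * Real.sqrt (7 * (1 / (N : ℝ)))) ^ 2 ≤ (ε / 3) ^ 2 := by
      rw [mul_pow, Real.sq_sqrt (by positivity)]
      rw [div_lt_iff₀ (by positivity)] at hn
      have e3 : 63 * (d * M) ^ 2 ≤ N * ε ^ 2 :=
        hn.le.trans (mul_le_mul_of_nonneg_right hNn (by positivity))
      have e4 : (d * M) ^ 2 * (7 * (1 / (N : ℝ))) = 7 * (d * M) ^ 2 / N := by ring
      rw [e4, div_le_iff₀ hN0]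
      linarith
    exact (le_abs_self _).trans (abs_le_of_sq_le_sq e2 (by positivity))
  have h3 : Tendsto (fun T : ℕ => ∑ a ∈ S, 1 / (N : ℝ) * avg T (baseChange a β)) atTop (𝓝 r) := by
    have e1 := tendsto_finsetSum S
      (f := fun a (T : ℕ) => 1 / (N : ℝ) * avg T (baseChange a β))
      (a := fun _ => 1 / (N : ℝ) * r) fun a ha => (h a (hS a ha)).2.const_mul _
    have e2 : ∑ a ∈ S, 1 / (N : ℝ) * r = r := by
      rw [Finset.sum_const, hSc, nsmul_eq_mul]
      field_simp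
    rwa [e2] at e1
  filter_upwards [h1, Metric.tendsto_nhds.1 h3 (ε / 3) (by positivity)] with T a1 a2
  have h4 : avg T β = ∑ a ∈ S, 1 / (N : ℝ) * avg T (baseChange a β) -
      ∑ a ∈ S, 1 / (N : ℝ) * twistAvg T a β := by
    rw [← Finset.sum_sub_distrib]
    have e1 : ∀ a ∈ S, 1 / (N : ℝ) * avg T (baseChange a β) - 1 / (N : ℝ) * twistAvg T a β =
        1 / (N : ℝ) * avg T β := by
      intro a _
      rw [avg_baseChange b]
      ring
    rw [Finset.sum_congr rfl e1, Finset.sum_const, hSc, nsmul_eq_mul]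
    field_simp
  rw [Real.dist_eq] at a2 ⊢
  have h5 := abs_add_le (∑ a ∈ S, 1 / (N : ℝ) * avg T (baseChange a β) - r)
    (-∑ a ∈ S, 1 / (N : ℝ) * twistAvg T a β)
  rw [abs_neg] at h5
  have h6 : avg T β - r = ∑ a ∈ S, 1 / (N : ℝ) * avg T (baseChange a β) - r +
      -∑ a ∈ S, 1 / (N : ℝ) * twistAvg T a β := by
    rw [h4]
    ring
  rw [h6]
  linarith

/-- Double covers are twists. -/
theorem cover {p : ℕ} (hp : p.Prime) (hp2 : p ≠ 2) {n c : ℕ} (φ : R →+* ZMod p)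
    (h : Fin c → MvPolynomial (Fin n) R) (f : MvPolynomial (Fin n) R) {a : ℤ}
    (ha : ¬ (p : ℤ) ∣ a) :
    coverPoints φ h f a - points φ h =
      (jacobiSym a p : ℝ) * (coverPoints φ h f 1 - points φ h) := by
  have hF : Fact p.Prime := ⟨hp⟩
  have h1 : ((a : ℤ) : ZMod p) ≠ 0 := by
    intro h5
    rw [ZMod.intCast_zmod_eq_zero_iff_dvd] at h5
    exact ha h5
  rw [cover_sub φ h f hp2 h1, ch_odd a (hp.odd_of_ne_two hp2)]

end Pool.Agent.Helper29.DC
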