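import Pool.Agent.Helper29.UT.High
import Pool.Agent.Helper29.UT.Count

/-!
# Duality for families of almost orthogonal completely multiplicative functions
-/

set_option autoImplicit false

namespace Pool.Agent.Helper29.DC

open Finset Pool.Agent.Helper29.QT Pool.Agent.Helper29.UT
open scoped ComplexConjugate

variable {ι : Type}

/-- A finite family of completely multiplicative functions with values in the unit disc, such that
the correlations of different members have bounded sums. -/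
structure CF (ψ : ι → ℕ → ℂ) (A : Finset ι) (Q : ℝ) : Prop where
  Q_nonneg : 0 ≤ Q
  one : ∀ i ∈ A, ψ i 1 = 1
  mul : ∀ i ∈ A, ∀ m n, ψ i (m * n) = ψ i m * ψ i n
  norm_le : ∀ i ∈ A, ∀ n, ‖ψ i n‖ ≤ 1
  pair : ∀ i ∈ A, ∀ j ∈ A, i ≠ j → ∀ N, ‖∑ n ∈ Icc 1 N, ψ i n * conj (ψ j n)‖ ≤ Q

variable {ψ : ι → ℕ → ℂ} {A : Finset ι} {Q : ℝ}

lemma CF.subset (h : CF ψ A Q) {B : Finset ι} (hB : B ⊆ A) : CF ψ B Q :=
  ⟨h.Q_nonneg, fun i hi => h.one i (hB hi), fun i hi => h.mul i (hB hi),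
    fun i hi => h.norm_le i (hB hi), fun i hi j hj => h.pair i (hB hi) j (hB hj)⟩

/-- The multiples. -/
lemma filter_dvd_eq {D : ℕ} (hD : 1 ≤ D) (N : ℕ) :
    (Icc 1 N).filter (D ∣ ·) = (Icc 1 (N / D)).image fun k => D * k := by
  ext n
  rw [Finset.mem_filter, Finset.mem_Icc, Finset.mem_image]
  constructor
  · rintro ⟨⟨h1, h2⟩, k, rfl⟩
    refine ⟨k, ?_, rfl⟩
    rw [Finset.mem_Icc]
    constructor
    · rcases Nat.eq_zero_or_pos k with h | h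
      · rw [h, mul_zero] at h1; omega
      · exact h
    · rw [Nat.le_div_iff_mul_le hD, mul_comm]; exact h2
  · rintro ⟨k, hk, rfl⟩
    rw [Finset.mem_Icc] at hk
    refine ⟨⟨Nat.mul_pos hD hk.1, ?_⟩, dvd_mul_right _ _⟩
    calc D * k ≤ D * (N / D) := Nat.mul_le_mul_left D hk.2
      _ ≤ N := Nat.mul_div_le N D

lemma CF.pair_dvd (h : CF ψ A Q) {i j : ι} (hi : i ∈ A) (hj : j ∈ A) (hij : i ≠ j) (N D : ℕ)
    (hD : 1 ≤ D) : ‖∑ n ∈ (Icc 1 N).filter (D ∣ ·), ψ i n * conj (ψ j n)‖ ≤ Q := by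
  have h1 : ∑ n ∈ (Icc 1 N).filter (D ∣ ·), ψ i n * conj (ψ j n) =
      (ψ i D * conj (ψ j D)) * ∑ n ∈ Icc 1 (N / D), ψ i n * conj (ψ j n) := by
    rw [filter_dvd_eq hD, Finset.sum_image, Finset.mul_sum]
    · refine Finset.sum_congr rfl fun n _ => ?_
      rw [h.mul i hi, h.mul j hj, map_mul]
      ring
    · intro k _ k' _ hkk
      exact Nat.eq_of_mul_eq_mul_left hD hkk
  rw [h1, norm_mul]
  calc ‖ψ i D * conj (ψ j D)‖ * ‖∑ n ∈ Icc 1 (N / D), ψ i n * conj (ψ j n)‖ ≤ 1 * Q := by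
        apply mul_le_mul _ (h.pair i hi j hj hij _) (norm_nonneg _) zero_le_one
        rw [norm_mul, RCLike.norm_conj]
        exact mul_le_one₀ (h.norm_le i hi D) (norm_nonneg _) (h.norm_le j hj D)
    _ = Q := one_mul _

lemma norm_sum_ww_small {z : ℕ} (hz : 1 ≤ z) (S : Finset ℕ) (g : ℕ → ℂ) {Q : ℝ}
    (hQ : ∀ D : ℕ, 1 ≤ D → ‖∑ n ∈ S.filter (D ∣ ·), g n‖ ≤ Q) :
    ‖∑ n ∈ S, (ww z n : ℂ) * g n‖ ≤ (z : ℝ) ^ 4 * Q := by
  have h0 : ∑ n ∈ S, (ww z n : ℂ) * g n = ∑ d ∈ Icc 1 z, ∑ e ∈ Icc 1 z,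
      ((lam z d * lam z e : ℝ) : ℂ) * ∑ n ∈ S.filter (Nat.lcm d e ∣ ·), g n := by
    have h1 : ∀ n ∈ S, (ww z n : ℂ) * g n = ∑ d ∈ Icc 1 z, ∑ e ∈ Icc 1 z,
        ((lam z d * lam z e : ℝ) : ℂ) * (if Nat.lcm d e ∣ n then g n else 0) := by
      intro n _
      have h3 : (ww z n : ℂ) = ∑ d ∈ Icc 1 z, ∑ e ∈ Icc 1 z,
          (((if d ∣ n then lam z d else 0) * (if e ∣ n then lam z e else 0) : ℝ) : ℂ) := by
        unfold ww
        rw [sq, Finset.sum_filter, Finset.sum_mul_sum]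
        push_cast
        rfl
      rw [h3, Finset.sum_mul]
      refine Finset.sum_congr rfl fun d _ => ?_
      rw [Finset.sum_mul]
      refine Finset.sum_congr rfl fun e _ => ?_
      have h2 : Nat.lcm d e ∣ n ↔ d ∣ n ∧ e ∣ n := Nat.lcm_dvd_iff
      by_cases h3 : d ∣ n <;> by_cases h4 : e ∣ n <;> simp [h2, h3, h4]
    rw [Finset.sum_congr rfl h1, Finset.sum_comm]
    refine Finset.sum_congr rfl fun d _ => ?_
    rw [Finset.sum_comm]
    refine Finset.sum_congr rfl fun e _ => ?_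
    rw [← Finset.mul_sum, Finset.sum_filter]
  rw [h0]
  have h1 : ‖∑ d ∈ Icc 1 z, ∑ e ∈ Icc 1 z, ((lam z d * lam z e : ℝ) : ℂ) *
      ∑ n ∈ S.filter (Nat.lcm d e ∣ ·), g n‖ ≤
      ∑ d ∈ Icc 1 z, ∑ e ∈ Icc 1 z, |lam z d * lam z e| * Q := by
    refine (norm_sum_le _ _).trans (Finset.sum_le_sum fun d hd => ?_)
    refine (norm_sum_le _ _).trans (Finset.sum_le_sum fun e he => ?_)
    rw [norm_mul, Complex.norm_real, Real.norm_eq_abs]
    apply mul_le_mul_of_nonneg_left _ (abs_nonneg _)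
    apply hQ
    rw [Finset.mem_Icc] at hd he
    exact Nat.lcm_pos (by omega) (by omega)
  have hQ0 : 0 ≤ Q := (norm_nonneg _).trans (hQ 1 le_rfl)
  refine h1.trans ?_
  simp_rw [← Finset.sum_mul]
  exact mul_le_mul_of_nonneg_right (sum_abs_lam hz) hQ0

/-- The duality inequality. -/
lemma dual (N : Finset ℕ) {v : ℕ → ℝ} (hv : ∀ n ∈ N, 0 ≤ v n) (hψ : ∀ i ∈ A, ∀ n, ‖ψ i n‖ ≤ 1)
    {W E : ℝ} (hE : 0 ≤ E) (hW : ∑ n ∈ N, v n ≤ W)
    (hpair : ∀ i ∈ A, ∀ j ∈ A, i ≠ j → ‖∑ n ∈ N, (v n : ℂ) * (ψ i n * conj (ψ j n))‖ ≤ E)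
    (a : ι → ℂ) :
    ∑ n ∈ N, v n * ‖∑ i ∈ A, a i * ψ i n‖ ^ 2 ≤ (W + E * A.card) * ∑ i ∈ A, ‖a i‖ ^ 2 := by
  classical
  have h0 : 0 ≤ ∑ n ∈ N, v n * ‖∑ i ∈ A, a i * ψ i n‖ ^ 2 :=
    Finset.sum_nonneg fun n hn => mul_nonneg (hv n hn) (sq_nonneg _)
  have h1 : ((∑ n ∈ N, v n * ‖∑ i ∈ A, a i * ψ i n‖ ^ 2 : ℝ) : ℂ) =
      ∑ i ∈ A, ∑ j ∈ A, a i * conj (a j) * ∑ n ∈ N, (v n : ℂ) * (ψ i n * conj (ψ j n)) := by
    push_cast
    have h2 : ∀ n ∈ N, (v n : ℂ) * (‖∑ i ∈ A, a i * ψ i n‖ : ℂ) ^ 2 =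
        ∑ i ∈ A, ∑ j ∈ A, a i * conj (a j) * ((v n : ℂ) * (ψ i n * conj (ψ j n))) := by
      intro n _
      rw [← Complex.mul_conj', map_sum, Finset.sum_mul_sum, Finset.mul_sum]
      refine Finset.sum_congr rfl fun i _ => ?_
      rw [Finset.mul_sum]
      refine Finset.sum_congr rfl fun j _ => ?_
      rw [map_mul]
      ring
    rw [Finset.sum_congr rfl h2, Finset.sum_comm]
    refine Finset.sum_congr rfl fun i _ => ?_
    rw [Finset.sum_comm]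
    refine Finset.sum_congr rfl fun j _ => ?_
    rw [Finset.mul_sum]
  have h2 : ∑ n ∈ N, v n * ‖∑ i ∈ A, a i * ψ i n‖ ^ 2 =
      ‖∑ i ∈ A, ∑ j ∈ A, a i * conj (a j) * ∑ n ∈ N, (v n : ℂ) * (ψ i n * conj (ψ j n))‖ := by
    rw [← h1, Complex.norm_real, Real.norm_eq_abs, abs_of_nonneg h0]
  rw [h2]
  have h3 : ∀ i ∈ A, ∀ j ∈ A, ‖a i * conj (a j) * ∑ n ∈ N, (v n : ℂ) * (ψ i n * conj (ψ j n))‖ ≤
      (if i = j then ‖a i‖ ^ 2 * W else 0) + E * (‖a i‖ * ‖a j‖) := by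
    intro i hi j hj
    rw [norm_mul, norm_mul, RCLike.norm_conj]
    by_cases hij : i = j
    · subst hij
      rw [if_pos rfl]
      have h4 : ‖∑ n ∈ N, (v n : ℂ) * (ψ i n * conj (ψ i n))‖ ≤ W := by
        refine (norm_sum_le _ _).trans (le_trans (Finset.sum_le_sum fun n hn => ?_) hW)
        rw [norm_mul, norm_mul, RCLike.norm_conj, Complex.norm_real, Real.norm_eq_abs,
          abs_of_nonneg (hv n hn)]
        calc v n * (‖ψ i n‖ * ‖ψ i n‖) ≤ v n * 1 := by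
              apply mul_le_mul_of_nonneg_left _ (hv n hn)
              exact mul_le_one₀ (hψ i hi n) (norm_nonneg _) (hψ i hi n)
          _ = v n := mul_one _
      have h5 := mul_le_mul_of_nonneg_left h4 (sq_nonneg ‖a i‖)
      have h6 : 0 ≤ E * (‖a i‖ * ‖a i‖) := by positivity
      rw [← sq]
      linarith
    · rw [if_neg hij, zero_add, mul_comm E]
      exact mul_le_mul_of_nonneg_left (hpair i hi j hj hij) (by positivity)
  refine (norm_sum_le _ _).trans ((Finset.sum_le_sum fun i _ => norm_sum_le _ _).trans ?_)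
  refine (Finset.sum_le_sum fun i hi => Finset.sum_le_sum fun j hj => h3 i hi j hj).trans ?_
  simp_rw [Finset.sum_add_distrib, ← Finset.mul_sum]
  have h8 : ∑ i ∈ A, ∑ j ∈ A, (if i = j then ‖a i‖ ^ 2 * W else 0) =
      W * ∑ i ∈ A, ‖a i‖ ^ 2 := by
    rw [Finset.mul_sum]
    refine Finset.sum_congr rfl fun i hi => ?_
    rw [Finset.sum_ite_eq, if_pos hi, mul_comm]
  rw [h8, ← Finset.sum_mul]
  have h9 : (∑ i ∈ A, ‖a i‖) * ∑ i ∈ A, ‖a i‖ ≤ A.card * ∑ i ∈ A, ‖a i‖ ^ 2 := by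
    rw [← sq]
    exact sq_sum_le_card_mul_sum_sq
  have := mul_le_mul_of_nonneg_left h9 hE
  linarith

end Pool.Agent.Helper29.DC
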