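import Pool.Agent.Helper29.DC.Small
import Pool.Agent.Helper29.DC.Defs
import Pool.Agent.Helper29.QT.Base

/-!
# The main theorems on traces twisted by Dirichlet characters
-/

set_option autoImplicit false

namespace Pool.Agent.Helper29.DC

open Finset Filter Topology Pool.Agent.Helper29.QT Pool.Agent.Helper29.UT
  Pool.Agent.Helper29.TT

variable {M : ℝ}

/-- **The counting theorem.** -/
theorem count (hM : 0 ≤ M) {ε : ℝ} (hε : 0 < ε) : ∃ C : ℝ, 0 < C ∧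
    ∀ c : ℕ → ℂ, (∀ p : ℕ, p.Prime → ‖c p‖ ≤ M) →
    ∀ (S : Finset DI) (Y T₀ T₁ : ℕ), PS S Y → 2 ≤ T₀ → T₀ ≤ T₁ →
      (∀ χ ∈ S, ∃ T : ℕ, T₀ ≤ T ∧ T ≤ T₁ ∧ ε * T < ‖FC psi c T χ‖) →
      (S.card : ℝ) ≤ C * ((Y : ℝ) ^ 2 * Real.log T₀ ^ 4 / T₀ + Real.log Y ^ 9 + Real.log T₁) ∧
      (Y ^ 24 ≤ T₀ → (S.card : ℝ) ≤ C * (1 + Real.log (T₁ / T₀))) := by
  classical
  obtain ⟨C₁, hC₁, hsm⟩ := small hM hε
  obtain ⟨C₂, S₂, hC₂, hS₂, h2⟩ := count2 hM hε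
  obtain ⟨C₃, S₃, hC₃, hS₃, h3⟩ := count1 hM hε
  obtain ⟨R, hR⟩ : ∃ R : ℕ, R = S₂ + S₃ := ⟨_, rfl⟩
  have hl2 : 0 < Real.log 2 := Real.log_pos (by norm_num)
  have hR0 : (0 : ℝ) ≤ R := Nat.cast_nonneg R
  refine ⟨C₁ + C₂ + C₃ + R / Real.log 2 ^ 4 + R, by positivity, ?_⟩
  intro c hc S Y T₀ T₁ h hT₀ hT hbad
  have hlT : 0 < Real.log T₀ := Real.log_pos (by exact_mod_cast (by omega : 1 < T₀))
  have hT₀R : (0 : ℝ) < T₀ := by exact_mod_cast (by omega : 0 < T₀)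
  have hTR : (T₀ : ℝ) ≤ T₁ := by exact_mod_cast hT
  have hlTT : Real.log T₀ ≤ Real.log T₁ := Real.log_le_log hT₀R hTR
  have hA' : 0 ≤ (Y : ℝ) ^ 2 * Real.log T₀ ^ 4 / T₀ := by positivity
  have hlA : 0 ≤ Real.log Y ^ 9 := pow_nonneg (log_nonneg' Y) 9
  have hlT₁ : 0 ≤ Real.log T₁ := log_nonneg' T₁
  have hlog : Real.log (T₁ / T₀) = Real.log T₁ - Real.log T₀ :=
    Real.log_div (by linarith) hT₀R.ne'
  have hlog0 : 0 ≤ Real.log (T₁ / T₀) := by rw [hlog]; linarith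
  have hN3 : (S.card : ℝ) ≤ (Y : ℝ) ^ 2 := by exact_mod_cast card_PS h
  rcases Nat.lt_or_ge T₀ R with hlt | hge
  · -- small `T₀`: the trivial bound
    have hT₀R' : (T₀ : ℝ) ≤ R := by exact_mod_cast hlt.le
    have hl2T : Real.log 2 ≤ Real.log T₀ :=
      Real.log_le_log (by norm_num) (by exact_mod_cast hT₀)
    have hl4 : Real.log 2 ^ 4 ≤ Real.log T₀ ^ 4 := pow_le_pow_left₀ hl2.le hl2T 4
    constructor
    · calc (S.card : ℝ) ≤ (Y : ℝ) ^ 2 := hN3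
        _ = T₀ / Real.log T₀ ^ 4 * ((Y : ℝ) ^ 2 * Real.log T₀ ^ 4 / T₀) := by field_simp
        _ ≤ R / Real.log 2 ^ 4 * ((Y : ℝ) ^ 2 * Real.log T₀ ^ 4 / T₀) := by
            apply mul_le_mul_of_nonneg_right _ hA'
            exact div_le_div₀ hR0 hT₀R' (by positivity) hl4
        _ ≤ (C₁ + C₂ + C₃ + R / Real.log 2 ^ 4 + R) *
            ((Y : ℝ) ^ 2 * Real.log T₀ ^ 4 / T₀) := by
            apply mul_le_mul_of_nonneg_right _ hA'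
            linarith
        _ ≤ _ := by
            apply mul_le_mul_of_nonneg_left _ (by positivity)
            linarith
    · intro hA16
      have e1 : Y ^ 2 ≤ R := by
        rcases Nat.eq_zero_or_pos Y with h0 | h0
        · rw [h0]
          exact Nat.zero_le _
        · calc Y ^ 2 ≤ Y ^ 24 := Nat.pow_le_pow_right h0 (by norm_num)
            _ ≤ T₀ := hA16
            _ ≤ R := hlt.le
      have e2 : (Y : ℝ) ^ 2 ≤ R := by exact_mod_cast e1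
      calc (S.card : ℝ) ≤ R * 1 := by linarith
        _ ≤ (C₁ + C₂ + C₃ + R / Real.log 2 ^ 4 + R) * (1 + Real.log (T₁ / T₀)) := by
            apply mul_le_mul _ (by linarith) zero_le_one (by positivity)
            have : 0 ≤ R / Real.log 2 ^ 4 := by positivity
            linarith
  · have hSR₂ : S₂ ≤ T₀ := by omega
    have hSR₃ : S₃ ≤ T₀ := by omega
    constructor
    · have e1 := hsm c hc S Y T₀ h hT₀
      have e2 := h2 DI psi S c hc Y T₀ T₁ h.yf hSR₂ hT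
      have e3 : (S.card : ℝ) ≤ ((S.filter fun χ => ∃ T : ℕ, T₀ ≤ T ∧ T ≤ Y ∧
          ε * T < ‖FC psi c T χ‖).card : ℝ) + ((S.filter fun χ => ∃ T : ℕ, T₀ ≤ T ∧ T ≤ T₁ ∧
          Y < T ∧ ε * T < ‖FC psi c T χ‖).card : ℝ) := by
        have : S ⊆ (S.filter fun χ => ∃ T : ℕ, T₀ ≤ T ∧ T ≤ Y ∧ ε * T < ‖FC psi c T χ‖) ∪
            (S.filter fun χ => ∃ T : ℕ, T₀ ≤ T ∧ T ≤ T₁ ∧ Y < T ∧
              ε * T < ‖FC psi c T χ‖) := by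
          intro χ hχ
          obtain ⟨T, f1, f2, f3⟩ := hbad χ hχ
          rw [Finset.mem_union, Finset.mem_filter, Finset.mem_filter]
          rcases Nat.lt_or_ge Y T with hlt2 | hge2
          · exact Or.inr ⟨hχ, T, f1, f2, hlt2, f3⟩
          · exact Or.inl ⟨hχ, T, f1, hge2, f3⟩
        exact_mod_cast (Finset.card_le_card this).trans (Finset.card_union_le _ _)
      have e6 : C₁ * ((Y : ℝ) ^ 2 * Real.log T₀ ^ 4 / T₀) ≤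
          C₁ * ((Y : ℝ) ^ 2 * Real.log T₀ ^ 4 / T₀ + Real.log Y ^ 9 + Real.log T₁) :=
        mul_le_mul_of_nonneg_left (by linarith) hC₁.le
      have e7 : C₂ * (Real.log Y ^ 9 + Real.log T₁) ≤
          C₂ * ((Y : ℝ) ^ 2 * Real.log T₀ ^ 4 / T₀ + Real.log Y ^ 9 + Real.log T₁) :=
        mul_le_mul_of_nonneg_left (by linarith) hC₂.le
      have e8 : 0 ≤ (C₃ + R / Real.log 2 ^ 4 + R) *
          ((Y : ℝ) ^ 2 * Real.log T₀ ^ 4 / T₀ + Real.log Y ^ 9 + Real.log T₁) := by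
        positivity
      have e9 : (C₁ + C₂ + C₃ + R / Real.log 2 ^ 4 + R) *
          ((Y : ℝ) ^ 2 * Real.log T₀ ^ 4 / T₀ + Real.log Y ^ 9 + Real.log T₁) =
          C₁ * ((Y : ℝ) ^ 2 * Real.log T₀ ^ 4 / T₀ + Real.log Y ^ 9 + Real.log T₁) +
          C₂ * ((Y : ℝ) ^ 2 * Real.log T₀ ^ 4 / T₀ + Real.log Y ^ 9 + Real.log T₁) +
          (C₃ + R / Real.log 2 ^ 4 + R) *
          ((Y : ℝ) ^ 2 * Real.log T₀ ^ 4 / T₀ + Real.log Y ^ 9 + Real.log T₁) := by ring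
      rw [e9]
      linarith
    · intro hA16
      have e1 := h3 DI psi S c hc Y T₀ T₁ h.yf hSR₃ hT hA16
      have e2 : (S.card : ℝ) ≤ ((S.filter fun χ => ∃ T : ℕ, T₀ ≤ T ∧ T ≤ T₁ ∧
          ε * T < ‖FC psi c T χ‖).card : ℝ) := by
        have : S ⊆ S.filter fun χ => ∃ T : ℕ, T₀ ≤ T ∧ T ≤ T₁ ∧ ε * T < ‖FC psi c T χ‖ :=
          fun χ hχ => Finset.mem_filter.2 ⟨hχ, hbad χ hχ⟩
        exact_mod_cast Finset.card_le_card this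
      rw [hlog]
      have e3 : 0 ≤ 1 + (Real.log T₁ - Real.log T₀) := by linarith
      refine (e2.trans e1).trans (mul_le_mul_of_nonneg_right ?_ e3)
      have : 0 ≤ R / Real.log 2 ^ 4 := by positivity
      linarith

/-- The exceptional characters for long intervals. -/
theorem often {C : ℝ} {F : DI → ℕ → ℂ} {ε : ℝ}
    (hcount : ∀ (S : Finset DI) (Y T₀ T₁ : ℕ), PS S Y → 2 ≤ T₀ → T₀ ≤ T₁ →
      (∀ χ ∈ S, ∃ T : ℕ, T₀ ≤ T ∧ T ≤ T₁ ∧ ε < ‖F χ T‖) → Y ^ 24 ≤ T₀ →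
      (S.card : ℝ) ≤ C * (1 + Real.log (T₁ / T₀)))
    (K : ℕ) (hK : 1 ≤ K) : ∃ E : Finset DI, (E.card : ℝ) ≤ C * (1 + Real.log K) ∧
      ∀ χ : DI, 1 ≤ χ.1 → χ.2.IsPrimitive → χ ∉ E → ∃ᶠ X : ℕ in atTop,
        ∀ T : ℕ, X ≤ K * T → T ≤ X → ‖F χ T‖ ≤ ε := by
  classical
  obtain ⟨B, hB⟩ : ∃ B : Set DI, B = {χ : DI | (1 ≤ χ.1 ∧ χ.2.IsPrimitive) ∧ ∀ᶠ X : ℕ in atTop,
    ∃ T : ℕ, X ≤ K * T ∧ T ≤ X ∧ ε < ‖F χ T‖} := ⟨_, rfl⟩
  have key : ∀ S : Finset DI, (S : Set DI) ⊆ B → (S.card : ℝ) ≤ C * (1 + Real.log K) := by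
    intro S hF
    have hF' : ∀ a ∈ S, (1 ≤ a.1 ∧ a.2.IsPrimitive) ∧ ∀ᶠ X : ℕ in atTop,
        ∃ T : ℕ, X ≤ K * T ∧ T ≤ X ∧ ε < ‖F a T‖ := by
      intro a ha
      have := hF (Finset.mem_coe.2 ha)
      rw [hB] at this
      exact this
    obtain ⟨Y, hY⟩ : ∃ Y : ℕ, Y = ∑ a ∈ S, a.1 := ⟨_, rfl⟩
    have hFA : ∀ a ∈ S, a.1 ≤ Y := by
      intro a ha
      rw [hY]
      exact Finset.single_le_sum (f := fun a : DI => a.1) (fun _ _ => Nat.zero_le _) ha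
    have hall : ∀ᶠ X : ℕ in atTop, ∀ a ∈ S, ∃ T : ℕ, X ≤ K * T ∧ T ≤ X ∧ ε < ‖F a T‖ := by
      rw [Filter.eventually_all_finset]
      exact fun a ha => (hF' a ha).2
    obtain ⟨X₀, hX₀⟩ := Filter.eventually_atTop.1 hall
    obtain ⟨T₀, hT₀⟩ : ∃ T₀ : ℕ, T₀ = X₀ + Y ^ 24 + 2 := ⟨_, rfl⟩
    have hX := hX₀ (K * T₀) (by
      have : T₀ ≤ K * T₀ := Nat.le_mul_of_pos_left T₀ hK
      omega)
    have h1 := hcount S Y T₀ (K * T₀)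
      (fun a ha => ⟨(hF' a ha).1.1, hFA a ha, (hF' a ha).1.2⟩) (by omega)
      (Nat.le_mul_of_pos_left T₀ hK) (fun a ha => by
        obtain ⟨T, h4, h5, h6⟩ := hX a ha
        exact ⟨T, Nat.le_of_mul_le_mul_left h4 hK, h5, h6⟩) (by omega)
    refine h1.trans (le_of_eq ?_)
    congr 2
    have hT₀' : (0 : ℝ) < T₀ := by exact_mod_cast (by omega : 0 < T₀)
    push_cast
    rw [mul_div_assoc, div_self hT₀'.ne', mul_one]
  have hfin : B.Finite := by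
    by_contra hinf
    obtain ⟨n, hn⟩ := exists_nat_gt (C * (1 + Real.log K))
    obtain ⟨S, hF, hFc⟩ := Set.Infinite.exists_subset_card_eq hinf n
    have := key S hF
    rw [hFc] at this
    linarith
  refine ⟨hfin.toFinset, ?_, ?_⟩
  · exact key _ (by rw [Set.Finite.coe_toFinset])
  · intro a ha1 ha2 haE
    rw [Set.Finite.mem_toFinset, hB, Set.mem_ofPred_eq, not_and] at haE
    have h3 := haE ⟨ha1, ha2⟩
    rw [Filter.not_eventually] at h3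
    refine h3.mono fun X hX T hT1 hT2 => ?_
    push Not at hX
    exact hX T hT1 hT2

/-- Weighted sums. -/
theorem weighted {ι : Type} {ψ : ι → ℕ → ℂ} {A : Finset ι} {Q : ℝ} {c : ℕ → ℂ}
    (h : CF ψ A Q) (hc : ∀ p : ℕ, p.Prime → ‖c p‖ ≤ M) (m : ι → ℂ) {δ : ℝ} (hδ : 0 < δ) :
    ∀ᶠ T : ℕ in atTop, ‖∑ i ∈ A, m i * (FC ψ c T i / T)‖ ≤
      M * Real.sqrt (7 * ∑ i ∈ A, ‖m i‖ ^ 2) + δ := by
  have hM : 0 ≤ M := (norm_nonneg _).trans (hc 2 Nat.prime_two)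
  obtain ⟨L, hL⟩ : ∃ L : ℝ, L = ∑ i ∈ A, ‖m i‖ := ⟨_, rfl⟩
  have hL0 : 0 ≤ L := by rw [hL]; exact Finset.sum_nonneg fun _ _ => norm_nonneg _
  have e2 : ∀ᶠ T : ℕ in atTop, |(L * (M * Real.log 4)) * (zz T : ℝ) / T| < δ := by
    have h1 := (tendsto_small' (L * (M * Real.log 4))).eventually
      (Metric.ball_mem_nhds (0 : ℝ) hδ)
    filter_upwards [h1] with T hT
    have hT' := Metric.mem_ball.1 hT
    rwa [Real.dist_eq, sub_zero] at hT'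
  have e3 : ∀ᶠ T : ℕ in atTop,
      |Real.log T * ((zz T : ℝ) ^ 4 * (1 + A.card * Q)) / T| < 1 / 1000 := by
    have h1 := (tendsto_small (1 + A.card * Q)).eventually
      (Metric.ball_mem_nhds (0 : ℝ) (by norm_num : (0 : ℝ) < 1 / 1000))
    filter_upwards [h1] with T hT
    have hT' := Metric.mem_ball.1 hT
    rwa [Real.dist_eq, sub_zero] at hT'
  filter_upwards [e2, e3, eventually_ge_atTop 1] with T h2 h3 hT
  have hT0 : (0 : ℝ) < T := by exact_mod_cast hT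
  have hb := bessel h hc (one_le_zz hT) (lt_zz T)
  have h6 : M ^ 2 * (Real.log 4 * T) * (5 * T + Real.log T * ((zz T : ℝ) ^ 4 *
      (1 + A.card * Q))) ≤ 7 * M ^ 2 * (T : ℝ) ^ 2 := by
    have h7 : Real.log T * ((zz T : ℝ) ^ 4 * (1 + A.card * Q)) ≤ 1 / 1000 * T := by
      have h8 := (le_abs_self _).trans h3.le
      rw [div_le_iff₀ hT0] at h8
      exact h8
    have h10 : 0 ≤ Real.log 4 := Real.log_nonneg (by norm_num)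
    calc _ ≤ M ^ 2 * (Real.log 4 * T) * (5 * T + 1 / 1000 * T) := by
          apply mul_le_mul_of_nonneg_left _ (by positivity)
          linarith
      _ = (Real.log 4 * 5.001) * (M ^ 2 * (T : ℝ) ^ 2) := by ring
      _ ≤ 7 * (M ^ 2 * (T : ℝ) ^ 2) := by
          apply mul_le_mul_of_nonneg_right _ (by positivity)
          linarith [log_four_lt]
      _ = _ := by ring
  -- the main term
  have h4 : ‖∑ i ∈ A, m i * SC ψ c (zz T) T i‖ ≤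
      M * Real.sqrt (7 * ∑ i ∈ A, ‖m i‖ ^ 2) * T := by
    have h4' : ‖∑ i ∈ A, m i * SC ψ c (zz T) T i‖ ≤
        ∑ i ∈ A, ‖m i‖ * ‖SC ψ c (zz T) T i‖ := by
      refine (norm_sum_le _ _).trans (Finset.sum_le_sum fun i _ => ?_)
      rw [norm_mul]
    have h5 : (∑ i ∈ A, ‖m i‖ * ‖SC ψ c (zz T) T i‖) ^ 2 ≤
        (M * Real.sqrt (7 * ∑ i ∈ A, ‖m i‖ ^ 2) * T) ^ 2 := by
      refine (Finset.sum_mul_sq_le_sq_mul_sq _ _ _).trans ?_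
      have hm : 0 ≤ ∑ i ∈ A, ‖m i‖ ^ 2 := Finset.sum_nonneg fun _ _ => sq_nonneg _
      rw [mul_pow, mul_pow, Real.sq_sqrt (by positivity)]
      calc (∑ i ∈ A, ‖m i‖ ^ 2) * ∑ i ∈ A, ‖SC ψ c (zz T) T i‖ ^ 2 ≤
          (∑ i ∈ A, ‖m i‖ ^ 2) * (7 * M ^ 2 * (T : ℝ) ^ 2) :=
            mul_le_mul_of_nonneg_left (hb.trans h6) hm
        _ = _ := by ring
    refine h4'.trans ?_
    exact (le_abs_self _).trans (abs_le_of_sq_le_sq h5 (by positivity))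
  have h5 : ‖∑ i ∈ A, m i * (FC ψ c T i - SC ψ c (zz T) T i)‖ ≤ δ * T := by
    calc _ ≤ ∑ i ∈ A, ‖m i * (FC ψ c T i - SC ψ c (zz T) T i)‖ := norm_sum_le _ _
      _ ≤ ∑ i ∈ A, ‖m i‖ * (M * (Real.log 4 * zz T)) := by
          refine Finset.sum_le_sum fun i hi => ?_
          rw [norm_mul]
          exact mul_le_mul_of_nonneg_left (FC_sub h.norm_le hc (zz T) T hi) (norm_nonneg _)
      _ = L * (M * Real.log 4) * zz T := by rw [← Finset.sum_mul, ← hL]; ring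
      _ ≤ _ := by
          have := (le_abs_self _).trans h2.le
          rwa [div_le_iff₀ hT0] at this
  have h7 : ∑ i ∈ A, m i * (FC ψ c T i / T) =
      (∑ i ∈ A, m i * (FC ψ c T i - SC ψ c (zz T) T i)) / T +
      (∑ i ∈ A, m i * SC ψ c (zz T) T i) / T := by
    rw [Finset.sum_div, Finset.sum_div, ← Finset.sum_add_distrib]
    refine Finset.sum_congr rfl fun i _ => ?_
    ring
  rw [h7]
  have h8 : ‖(∑ i ∈ A, m i * (FC ψ c T i - SC ψ c (zz T) T i)) / T‖ ≤ δ := by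
    rw [norm_div, Complex.norm_natCast, div_le_iff₀ hT0]
    exact h5
  have h9 : ‖(∑ i ∈ A, m i * SC ψ c (zz T) T i) / T‖ ≤
      M * Real.sqrt (7 * ∑ i ∈ A, ‖m i‖ ^ 2) := by
    rw [norm_div, Complex.norm_natCast, div_le_iff₀ hT0]
    exact h4
  refine (norm_add_le _ _).trans ?_
  linarith

/-! ### The traces -/

variable {R : Type} [CommRing R] {d : ℕ}

/-- The coefficients. -/
noncomputable def cz (β : ∀ p : ℕ, (R →+* ZMod p) → ℂ) (p : ℕ) : ℂ :=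
  ∑ᶠ φ : R →+* ZMod p, β p φ / p

lemma norm_cz_le (b : Module.Basis (Fin d) ℤ R) {β : ∀ p : ℕ, (R →+* ZMod p) → ℂ}
    (hM0 : 0 ≤ M) {p : ℕ} (hp : p.Prime)
    (hM : ∀ φ : R →+* ZMod p, ‖β p φ‖ ≤ M * p) : ‖cz β p‖ ≤ d * M := by
  have hF : Fact p.Prime := ⟨hp⟩
  have hfin : Finite (R →+* ZMod p) := Pool.Agent.Helper29.LN.hom_finite b
  have hft := Fintype.ofFinite (R →+* ZMod p)
  have hp0 : (0 : ℝ) < p := by exact_mod_cast hp.pos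
  unfold cz
  rw [finsum_eq_sum_of_fintype]
  calc _ ≤ ∑ φ : R →+* ZMod p, ‖β p φ / p‖ := norm_sum_le _ _
    _ ≤ ∑ φ : R →+* ZMod p, M := by
        refine Finset.sum_le_sum fun φ _ => ?_
        rw [norm_div, Complex.norm_natCast, div_le_iff₀ hp0]
        exact hM φ
    _ = Fintype.card (R →+* ZMod p) * M := by
        rw [Finset.sum_const, Finset.card_univ, nsmul_eq_mul]
    _ ≤ d * M := mul_le_mul_of_nonneg_right
        (by exact_mod_cast Pool.Agent.Helper29.LN.card_hom_le b) hM0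

lemma charAvg_eq (b : Module.Basis (Fin d) ℤ R) (β : ∀ p : ℕ, (R →+* ZMod p) → ℂ) (T : ℕ)
    (χ : DI) : charAvg T χ.2 β = FC psi (cz β) T χ / T := by
  unfold charAvg FC PR
  congr 1
  refine Finset.sum_congr rfl fun p hp => ?_
  have hp1 : p.Prime := (Finset.mem_filter.1 hp).2
  have hF : Fact p.Prime := ⟨hp1⟩
  have hfin : Finite (R →+* ZMod p) := Pool.Agent.Helper29.LN.hom_finite b
  have hft := Fintype.ofFinite (R →+* ZMod p)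
  unfold cz psi
  rw [finsum_eq_sum_of_fintype, finsum_eq_sum_of_fintype, Finset.sum_mul, Finset.mul_sum]
  refine Finset.sum_congr rfl fun φ _ => ?_
  ring

lemma lt_iff (b : Module.Basis (Fin d) ℤ R) (β : ∀ p : ℕ, (R →+* ZMod p) → ℂ) {T : ℕ}
    (hT : 1 ≤ T) (χ : DI) {ε : ℝ} :
    ε < ‖charAvg T χ.2 β‖ ↔ ε * T < ‖FC psi (cz β) T χ‖ := by
  have hT0 : (0 : ℝ) < T := by exact_mod_cast hT
  rw [charAvg_eq b, norm_div, Complex.norm_natCast, lt_div_iff₀ hT0]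

/-- **The theorem on traces twisted by Dirichlet characters.** -/
theorem chars (d : ℕ) {M : ℝ} (hM0 : 0 ≤ M) {ε : ℝ} (hε : 0 < ε) :
    ∃ C : ℝ, 0 < C ∧ ∀ (R : Type) [CommRing R] (_b : Module.Basis (Fin d) ℤ R)
      (β : ∀ p : ℕ, (R →+* ZMod p) → ℂ),
    (∀ p : ℕ, p.Prime → ∀ φ : R →+* ZMod p, ‖β p φ‖ ≤ M * p) →
    (∀ (S : Finset DI) (Y T₀ T₁ : ℕ), 2 ≤ T₀ → T₀ ≤ T₁ →
      (∀ χ ∈ S, 1 ≤ χ.1 ∧ χ.1 ≤ Y ∧ χ.2.IsPrimitive ∧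
        ∃ T : ℕ, T₀ ≤ T ∧ T ≤ T₁ ∧ ε < ‖charAvg T χ.2 β‖) →
      (S.card : ℝ) ≤ C * ((Y : ℝ) ^ 2 * Real.log T₀ ^ 4 / T₀ + Real.log Y ^ 9 +
        Real.log T₁)) ∧
    (∀ (S : Finset DI) (Y T₀ T₁ : ℕ), 2 ≤ T₀ → T₀ ≤ T₁ → Y ^ 24 ≤ T₀ →
      (∀ χ ∈ S, 1 ≤ χ.1 ∧ χ.1 ≤ Y ∧ χ.2.IsPrimitive ∧
        ∃ T : ℕ, T₀ ≤ T ∧ T ≤ T₁ ∧ ε < ‖charAvg T χ.2 β‖) →
      (S.card : ℝ) ≤ C * (1 + Real.log (T₁ / T₀))) ∧
    (∀ K : ℕ, 1 ≤ K → ∃ E : Finset DI, (E.card : ℝ) ≤ C * (1 + Real.log K) ∧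
      ∀ χ : DI, 1 ≤ χ.1 → χ.2.IsPrimitive → χ ∉ E → ∃ᶠ X : ℕ in atTop,
        ∀ T : ℕ, X ≤ K * T → T ≤ X → ‖charAvg T χ.2 β‖ ≤ ε) := by
  obtain ⟨C, hC, hmain⟩ := count (M := d * M) (by positivity) hε
  refine ⟨C, hC, ?_⟩
  intro R _ b β hM
  have hc : ∀ p : ℕ, p.Prime → ‖cz β p‖ ≤ d * M := fun p hp => norm_cz_le b hM0 hp (hM p hp)
  have hS : ∀ (S : Finset DI) (Y T₀ T₁ : ℕ), 2 ≤ T₀ →
      (∀ χ ∈ S, 1 ≤ χ.1 ∧ χ.1 ≤ Y ∧ χ.2.IsPrimitive ∧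
        ∃ T : ℕ, T₀ ≤ T ∧ T ≤ T₁ ∧ ε < ‖charAvg T χ.2 β‖) →
      PS S Y ∧ ∀ χ ∈ S, ∃ T : ℕ, T₀ ≤ T ∧ T ≤ T₁ ∧ ε * T < ‖FC psi (cz β) T χ‖ := by
    intro S Y T₀ T₁ hT₀ h
    refine ⟨fun χ hχ => ⟨(h χ hχ).1, (h χ hχ).2.1, (h χ hχ).2.2.1⟩, fun χ hχ => ?_⟩
    obtain ⟨T, h1, h2, h3⟩ := (h χ hχ).2.2.2
    exact ⟨T, h1, h2, (lt_iff b β (by omega) χ).1 h3⟩
  refine ⟨?_, ?_, ?_⟩
  · intro S Y T₀ T₁ hT₀ hT h
    obtain ⟨h1, h2⟩ := hS S Y T₀ T₁ hT₀ h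
    exact (hmain (cz β) hc S Y T₀ T₁ h1 hT₀ hT h2).1
  · intro S Y T₀ T₁ hT₀ hT h24 h
    obtain ⟨h1, h2⟩ := hS S Y T₀ T₁ hT₀ h
    exact (hmain (cz β) hc S Y T₀ T₁ h1 hT₀ hT h2).2 h24
  · intro K hK
    apply often (F := fun χ T => charAvg T χ.2 β) _ K hK
    intro S Y T₀ T₁ h1 hT₀ hT h h24
    have h' := hS S Y T₀ T₁ hT₀ fun χ hχ =>
      ⟨(h1 χ hχ).1, (h1 χ hχ).2.1, (h1 χ hχ).2.2, h χ hχ⟩
    exact (hmain (cz β) hc S Y T₀ T₁ h1 hT₀ hT h'.2).2 h24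

/-- **The theorem on weighted sums of traces twisted by Dirichlet characters.** -/
theorem chars_weighted (b : Module.Basis (Fin d) ℤ R) (β : ∀ p : ℕ, (R →+* ZMod p) → ℂ)
    (hM0 : 0 ≤ M) (hM : ∀ p : ℕ, p.Prime → ∀ φ : R →+* ZMod p, ‖β p φ‖ ≤ M * p)
    (S : Finset DI) (hS : ∀ χ ∈ S, 1 ≤ χ.1 ∧ χ.2.IsPrimitive) (m : DI → ℂ) {δ : ℝ}
    (hδ : 0 < δ) :
    ∀ᶠ T : ℕ in atTop, ‖∑ χ ∈ S, m χ * charAvg T χ.2 β‖ ≤
      d * M * Real.sqrt (7 * ∑ χ ∈ S, ‖m χ‖ ^ 2) + δ := by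
  have hPS : PS S (∑ χ ∈ S, χ.1) := by
    intro χ hχ
    refine ⟨(hS χ hχ).1, ?_, (hS χ hχ).2⟩
    exact Finset.single_le_sum (f := fun a : DI => a.1) (fun _ _ => Nat.zero_le _) hχ
  have hc : ∀ p : ℕ, p.Prime → ‖cz β p‖ ≤ d * M := fun p hp => norm_cz_le b hM0 hp (hM p hp)
  filter_upwards [weighted hPS.yf.cf hc m hδ] with T hT
  simp_rw [charAvg_eq b]
  exact hT

end Pool.Agent.Helper29.DC
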