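import Pool.Agent.Helper29.DC.Scale

/-!
# The number of exceptional characters in a range of scales
-/

set_option autoImplicit false

namespace Pool.Agent.Helper29.DC

open Finset Filter Topology Pool.Agent.Helper29.QT Pool.Agent.Helper29.UT

open Classical in
/-- The number of exceptional characters in a range of large scales. -/
theorem count1 {M : ℝ} (hM : 0 ≤ M) {ε : ℝ} (hε : 0 < ε) :
    ∃ (C : ℝ) (S : ℕ), 0 < C ∧ 2 ≤ S ∧ ∀ (ι : Type) (ψ : ι → ℕ → ℂ) (A : Finset ι) (c : ℕ → ℂ),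
      (∀ p : ℕ, p.Prime → ‖c p‖ ≤ M) →
      ∀ Y T₀ T₁ : ℕ, YF ψ A Y → S ≤ T₀ → T₀ ≤ T₁ → Y ^ 24 ≤ T₀ →
      ((A.filter fun i => ∃ T : ℕ, T₀ ≤ T ∧ T ≤ T₁ ∧ ε * T < ‖FC ψ c T i‖).card : ℝ) ≤
        C * (1 + (Real.log T₁ - Real.log T₀)) := by
  obtain ⟨δ, hδ, hδ1, hMδ⟩ := exists_delta hε hM
  obtain ⟨X₀, hX2, hX⟩ := sum_log_short hδ hδ1
  obtain ⟨G₂, hG2, hbad⟩ := bad_high M (half_pos hε)
  have hl : 0 < Real.log (1 + δ) := Real.log_pos (by linarith)
  obtain ⟨K, hK⟩ : ∃ K : ℝ, K = 28 * M ^ 2 / ε ^ 2 := ⟨_, rfl⟩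
  have hK0 : 0 ≤ K := by rw [hK]; positivity
  refine ⟨(K + 1) * (1 / Real.log (1 + δ) + 2), 2 * max X₀ G₂, by positivity, ?_, ?_⟩
  · have := le_max_left X₀ G₂
    omega
  intro ι ψ A c hc Y T₀ T₁ hY hS hT hA
  have hψ := hY.cf.norm_le
  have hT₀ : 1 ≤ T₀ := by
    have := le_max_left X₀ G₂
    omega
  have hsub : (A.filter fun i => ∃ T : ℕ, T₀ ≤ T ∧ T ≤ T₁ ∧ ε * T < ‖FC ψ c T i‖) ⊆
      (Icc (ix δ T₀) (ix δ T₁)).biUnion fun j =>
        A.filter fun i => ε / 2 * gr δ j < ‖FC ψ c (gr δ j) i‖ := by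
    intro a ha
    obtain ⟨ha1, T, h1, h2, h3⟩ := Finset.mem_filter.1 ha
    rw [Finset.mem_biUnion]
    have hT1 : 1 ≤ T := hT₀.trans h1
    refine ⟨ix δ T, Finset.mem_Icc.2 ⟨ix_mono hδ hT₀ h1, ix_mono hδ hT1 h2⟩, ?_⟩
    rw [Finset.mem_filter]
    refine ⟨ha1, to_grid hψ hc hδ hMδ hX hT1 ?_ hε ha1 h3⟩
    have h4 := le_gr_ix hδ hT1
    have h5 : (T : ℝ) ≤ 2 * gr δ (ix δ T) := by
      refine h4.trans (mul_le_mul_of_nonneg_right (by linarith) (Nat.cast_nonneg _))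
    have h6 : T ≤ 2 * gr δ (ix δ T) := by exact_mod_cast h5
    have h7 := le_max_left X₀ G₂
    omega
  have hj : ∀ j ∈ Icc (ix δ T₀) (ix δ T₁),
      ((A.filter fun i => ε / 2 * gr δ j < ‖FC ψ c (gr δ j) i‖).card : ℝ) ≤ K := by
    intro j hj
    have h4 := le_gr_ix hδ hT₀
    have h5 : (T₀ : ℝ) ≤ 2 * gr δ (ix δ T₀) := by
      refine h4.trans (mul_le_mul_of_nonneg_right (by linarith) (Nat.cast_nonneg _))
    have h6 : T₀ ≤ 2 * gr δ (ix δ T₀) := by exact_mod_cast h5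
    have h7 := gr_mono hδ (Finset.mem_Icc.1 hj).1
    have h8 := le_max_right X₀ G₂
    have h9 := hbad ι ψ A c hc (gr δ j) Y hY (by omega) (by omega)
    rw [hK, le_div_iff₀ (by positivity)]
    nlinarith
  have h1 : ((A.filter fun i => ∃ T : ℕ, T₀ ≤ T ∧ T ≤ T₁ ∧ ε * T < ‖FC ψ c T i‖).card : ℝ) ≤
      ∑ j ∈ Icc (ix δ T₀) (ix δ T₁), K := by
    refine le_trans ?_ (Finset.sum_le_sum hj)
    exact_mod_cast (Finset.card_le_card hsub).trans Finset.card_biUnion_le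
  rw [Finset.sum_const, nsmul_eq_mul, Nat.card_Icc] at h1
  have h2 : ((ix δ T₁ + 1 - ix δ T₀ : ℕ) : ℝ) ≤
      (1 / Real.log (1 + δ) + 2) * (1 + (Real.log T₁ - Real.log T₀)) := by
    have hm := ix_mono hδ hT₀ hT
    rw [Nat.cast_sub (by omega)]
    push_cast
    have e1 : (ix δ T₁ : ℝ) ≤ Real.log T₁ / Real.log (1 + δ) :=
      Nat.floor_le (div_nonneg (log_nonneg' _) hl.le)
    have e2 : Real.log T₀ / Real.log (1 + δ) < ix δ T₀ + 1 := Nat.lt_floor_add_one _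
    have e3 : Real.log T₀ ≤ Real.log T₁ :=
      Real.log_le_log (by exact_mod_cast hT₀) (by exact_mod_cast hT)
    have e4 : 0 < 1 / Real.log (1 + δ) := by positivity
    have e5 : Real.log T₁ / Real.log (1 + δ) = 1 / Real.log (1 + δ) * Real.log T₁ := by ring
    have e6 : Real.log T₀ / Real.log (1 + δ) = 1 / Real.log (1 + δ) * Real.log T₀ := by ring
    rw [e5] at e1
    rw [e6] at e2
    nlinarith
  refine h1.trans ?_
  have h3 : (0 : ℝ) ≤ ((ix δ T₁ + 1 - ix δ T₀ : ℕ) : ℝ) := Nat.cast_nonneg _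
  calc ((ix δ T₁ + 1 - ix δ T₀ : ℕ) : ℝ) * K ≤ ((ix δ T₁ + 1 - ix δ T₀ : ℕ) : ℝ) * (K + 1) :=
        mul_le_mul_of_nonneg_left (by linarith) h3
    _ ≤ ((1 / Real.log (1 + δ) + 2) * (1 + (Real.log T₁ - Real.log T₀))) * (K + 1) :=
        mul_le_mul_of_nonneg_right h2 (by linarith)
    _ = _ := by ring

open Classical in
/-- The number of exceptional characters in a range of scales above the conductors. -/
theorem count2 {M : ℝ} (hM : 0 ≤ M) {ε : ℝ} (hε : 0 < ε) :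
    ∃ (C : ℝ) (S : ℕ), 0 < C ∧ 2 ≤ S ∧ ∀ (ι : Type) (ψ : ι → ℕ → ℂ) (A : Finset ι) (c : ℕ → ℂ),
      (∀ p : ℕ, p.Prime → ‖c p‖ ≤ M) →
      ∀ Y T₀ T₁ : ℕ, YF ψ A Y → S ≤ T₀ → T₀ ≤ T₁ →
      ((A.filter fun i => ∃ T : ℕ, T₀ ≤ T ∧ T ≤ T₁ ∧ Y < T ∧
        ε * T < ‖FC ψ c T i‖).card : ℝ) ≤ C * (Real.log Y ^ 9 + Real.log T₁) := by
  obtain ⟨δ, hδ, hδ1, hMδ⟩ := exists_delta hε hM
  obtain ⟨X₀, hX2, hX⟩ := sum_log_short hδ hδ1
  obtain ⟨G₂, hG2, hbad⟩ := bad_high M (half_pos hε)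
  obtain ⟨l, hlD⟩ : ∃ l, l = Real.log (1 + δ) := ⟨_, rfl⟩
  have hl : 0 < l := by rw [hlD]; exact Real.log_pos (by linarith)
  obtain ⟨K, hK⟩ : ∃ K : ℝ, K = 28 * M ^ 2 / ε ^ 2 := ⟨_, rfl⟩
  have hK0 : 0 ≤ K := by rw [hK]; positivity
  obtain ⟨D, hD⟩ : ∃ D : ℝ, D = 10 ^ 5 * (M / (ε / 2)) ^ 8 * 24 ^ 8 := ⟨_, rfl⟩
  have hD0 : 0 ≤ D := by rw [hD]; positivity
  refine ⟨K * (1 / l + 2) + D * (24 / l + 3) + 1, 2 * max X₀ G₂,
    by positivity, ?_, ?_⟩
  · have := le_max_left X₀ G₂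
    omega
  intro ι ψ A c hc Y T₀ T₁ hY hS hT
  have hψ := hY.cf.norm_le
  have hT₀ : 1 ≤ T₀ := by
    have := le_max_left X₀ G₂
    omega
  have hlA := log_nonneg' Y
  obtain ⟨J, hJ⟩ : ∃ J, J = (Icc 0 (ix δ T₁)).filter fun j =>
    max X₀ G₂ ≤ gr δ j ∧ Y ≤ 2 * gr δ j := ⟨_, rfl⟩
  have hsub : (A.filter fun i => ∃ T : ℕ, T₀ ≤ T ∧ T ≤ T₁ ∧ Y < T ∧
      ε * T < ‖FC ψ c T i‖) ⊆
      J.biUnion fun j => A.filter fun i => ε / 2 * gr δ j < ‖FC ψ c (gr δ j) i‖ := by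
    intro a ha
    obtain ⟨ha1, T, h1, h2, h2', h3⟩ := Finset.mem_filter.1 ha
    rw [Finset.mem_biUnion]
    have hT1 : 1 ≤ T := hT₀.trans h1
    have h4 := le_gr_ix hδ hT1
    have h5 : (T : ℝ) ≤ 2 * gr δ (ix δ T) := by
      refine h4.trans (mul_le_mul_of_nonneg_right (by linarith) (Nat.cast_nonneg _))
    have h6 : T ≤ 2 * gr δ (ix δ T) := by exact_mod_cast h5
    refine ⟨ix δ T, ?_, ?_⟩
    · rw [hJ, Finset.mem_filter, Finset.mem_Icc]
      exact ⟨⟨Nat.zero_le _, ix_mono hδ hT1 h2⟩, by omega, by omega⟩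
    · rw [Finset.mem_filter]
      refine ⟨ha1, to_grid hψ hc hδ hMδ hX hT1 ?_ hε ha1 h3⟩
      have h7 := le_max_left X₀ G₂
      omega
  have hj : ∀ j ∈ J,
      ((A.filter fun i => ε / 2 * gr δ j < ‖FC ψ c (gr δ j) i‖).card : ℝ) ≤
        K + if gr δ j ≤ Y ^ 24 then D * Real.log Y ^ 8 else 0 := by
    intro j hj
    rw [hJ, Finset.mem_filter] at hj
    obtain ⟨_, hj1, hj2⟩ := hj
    have h8 := le_max_right X₀ G₂
    by_cases h : Y ^ 24 ≤ 2 * gr δ j
    · have h9 := hbad ι ψ A c hc (gr δ j) Y hY (by omega) h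
      have h10 : ((A.filter fun i => ε / 2 * gr δ j < ‖FC ψ c (gr δ j) i‖).card : ℝ) ≤ K := by
        rw [hK, le_div_iff₀ (by positivity)]
        nlinarith
      have h11 : (0 : ℝ) ≤ if gr δ j ≤ Y ^ 24 then D * Real.log Y ^ 8 else 0 := by
        split_ifs
        · positivity
        · exact le_rfl
      linarith
    · rw [if_pos (by omega)]
      have h9 := bad_low hY hc (half_pos hε) (G := gr δ j) (by omega) hj2
      have h10 : Real.log (gr δ j) ≤ 24 * Real.log Y := by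
        have e1 : ((gr δ j : ℕ) : ℝ) ≤ (Y : ℝ) ^ 24 := by
          have : gr δ j ≤ Y ^ 24 := by omega
          exact_mod_cast this
        have e2 := Real.log_le_log (by exact_mod_cast (by omega : 0 < gr δ j)) e1
        rw [Real.log_pow] at e2
        exact_mod_cast e2
      have h11 : Real.log (gr δ j) ^ 8 ≤ (24 * Real.log Y) ^ 8 :=
        pow_le_pow_left₀ (log_nonneg' _) h10 8
      have h12 : 10 ^ 5 * (M / (ε / 2)) ^ 8 * Real.log (gr δ j) ^ 8 ≤
          D * Real.log Y ^ 8 := by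
        rw [hD]
        calc _ ≤ 10 ^ 5 * (M / (ε / 2)) ^ 8 * (24 * Real.log Y) ^ 8 :=
              mul_le_mul_of_nonneg_left h11 (by positivity)
          _ = _ := by ring
      linarith
  have h1 : ((A.filter fun i => ∃ T : ℕ, T₀ ≤ T ∧ T ≤ T₁ ∧ Y < T ∧
      ε * T < ‖FC ψ c T i‖).card : ℝ) ≤
      ∑ j ∈ J, (K + if gr δ j ≤ Y ^ 24 then D * Real.log Y ^ 8 else 0) := by
    refine le_trans ?_ (Finset.sum_le_sum hj)
    exact_mod_cast (Finset.card_le_card hsub).trans Finset.card_biUnion_le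
  have hcard : (J.card : ℝ) ≤ Real.log T₁ / l + 1 := by
    have e1 : J.card ≤ ix δ T₁ + 1 := by
      rw [hJ]
      refine (Finset.card_filter_le _ _).trans ?_
      rw [Nat.card_Icc, Nat.sub_zero]
    have e2 : (ix δ T₁ : ℝ) ≤ Real.log T₁ / l := by
      rw [hlD]
      exact Nat.floor_le (div_nonneg (log_nonneg' _) (hlD ▸ hl).le)
    have e3 : (J.card : ℝ) ≤ (ix δ T₁ : ℝ) + 1 := by exact_mod_cast e1
    linarith
  have hcard2 : ((J.filter fun j => gr δ j ≤ Y ^ 24).card : ℝ) ≤ 24 * Real.log Y / l + 1 := by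
    have e1 : J.filter (fun j => gr δ j ≤ Y ^ 24) ⊆ range (⌊24 * Real.log Y / l⌋₊ + 1) := by
      intro j hj
      have h2 := (Finset.mem_filter.1 hj).2
      rw [Finset.mem_range, Nat.lt_succ_iff]
      apply Nat.le_floor
      rw [le_div_iff₀ hl]
      have h3 : (1 + δ) ^ j ≤ (Y : ℝ) ^ 24 := by
        refine (le_gr δ j).trans ?_
        exact_mod_cast h2
      have h4 := Real.log_le_log (by positivity) h3
      rw [Real.log_pow, Real.log_pow, ← hlD] at h4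
      exact_mod_cast h4
    have e2 := Finset.card_le_card e1
    rw [Finset.card_range] at e2
    have e3 : ((J.filter fun j => gr δ j ≤ Y ^ 24).card : ℝ) ≤
        (⌊24 * Real.log Y / l⌋₊ : ℝ) + 1 := by exact_mod_cast e2
    have e4 : (⌊24 * Real.log Y / l⌋₊ : ℝ) ≤ 24 * Real.log Y / l :=
      Nat.floor_le (by positivity)
    linarith
  have h2 : ∑ j ∈ J, (K + if gr δ j ≤ Y ^ 24 then D * Real.log Y ^ 8 else 0) ≤
      (Real.log T₁ / l + 1) * K + (24 * Real.log Y / l + 1) * (D * Real.log Y ^ 8) := by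
    rw [Finset.sum_add_distrib, Finset.sum_const, nsmul_eq_mul, ← Finset.sum_filter,
      Finset.sum_const, nsmul_eq_mul]
    exact add_le_add (mul_le_mul_of_nonneg_right hcard hK0)
      (mul_le_mul_of_nonneg_right hcard2 (by positivity))
  refine h1.trans (h2.trans ?_)
  have hT1R : Real.log 2 ≤ Real.log T₁ := by
    apply Real.log_le_log (by norm_num)
    have : 2 ≤ T₁ := by
      have := le_max_left X₀ G₂
      omega
    exact_mod_cast this
  have hlog2 := Real.log_two_gt_d9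
  have hlT : 0 ≤ Real.log T₁ := log_nonneg' T₁
  have h3 : (Real.log T₁ / l + 1) * K ≤ K * (1 / l + 2) * Real.log T₁ := by
    have : Real.log T₁ / l + 1 ≤ (1 / l + 2) * Real.log T₁ := by
      have : Real.log T₁ / l = 1 / l * Real.log T₁ := by ring
      rw [this]
      linarith
    calc (Real.log T₁ / l + 1) * K ≤ ((1 / l + 2) * Real.log T₁) * K :=
          mul_le_mul_of_nonneg_right this hK0
      _ = _ := by ring
  have h4 : (24 * Real.log Y / l + 1) * (D * Real.log Y ^ 8) ≤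
      D * (24 / l + 1) * Real.log Y ^ 9 + D * 2 * Real.log T₁ := by
    have e0 : Real.log Y ^ 8 ≤ Real.log Y ^ 9 + 1 := by
      rcases le_total (Real.log Y) 1 with h | h
      · have e1 : Real.log Y ^ 8 ≤ 1 := pow_le_one₀ hlA h
        have e2 : 0 ≤ Real.log Y ^ 9 := by positivity
        linarith
      · have e1 : Real.log Y ^ 8 ≤ Real.log Y ^ 9 := pow_le_pow_right₀ h (by norm_num)
        linarith
    have e3 : (24 * Real.log Y / l + 1) * (D * Real.log Y ^ 8) =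
        D * (24 / l) * Real.log Y ^ 9 + D * Real.log Y ^ 8 := by ring
    rw [e3]
    have e4 := mul_le_mul_of_nonneg_left e0 hD0
    have e5 : D * 1 ≤ D * (2 * Real.log T₁) := mul_le_mul_of_nonneg_left (by linarith) hD0
    have e6 : D * (24 / l + 1) * Real.log Y ^ 9 =
        D * (24 / l) * Real.log Y ^ 9 + D * Real.log Y ^ 9 := by ring
    rw [e6]
    linarith
  have hL : 0 ≤ Real.log Y ^ 9 := by positivity
  have e5 : 0 ≤ K * (1 / l + 2) := by positivity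
  have e6 : 0 ≤ D * (24 / l + 3) := by positivity
  have e7 : 0 ≤ K * (1 / l + 2) * Real.log Y ^ 9 := mul_nonneg e5 hL
  have e8 : D * (24 / l + 1) * Real.log Y ^ 9 + D * 2 * Real.log T₁ ≤
      D * (24 / l + 3) * (Real.log Y ^ 9 + Real.log T₁) := by
    have f1 : D * (24 / l + 3) * (Real.log Y ^ 9 + Real.log T₁) =
        D * (24 / l + 1) * Real.log Y ^ 9 + D * 2 * Real.log T₁ +
        (D * 2 * Real.log Y ^ 9 + D * (24 / l + 1) * Real.log T₁) := by ring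
    rw [f1]
    have f2 : 0 ≤ D * 2 * Real.log Y ^ 9 := by positivity
    have f3 : 0 ≤ D * (24 / l + 1) * Real.log T₁ := mul_nonneg (by positivity) hlT
    linarith
  calc _ ≤ K * (1 / l + 2) * Real.log T₁ + (D * (24 / l + 1) * Real.log Y ^ 9 +
        D * 2 * Real.log T₁) := add_le_add h3 h4
    _ ≤ _ := by
        have : (K * (1 / l + 2) + D * (24 / l + 3) + 1) *
            (Real.log Y ^ 9 + Real.log T₁) =
            K * (1 / l + 2) * Real.log Y ^ 9 + K * (1 / l + 2) * Real.log T₁ +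
            D * (24 / l + 3) * (Real.log Y ^ 9 + Real.log T₁) +
            (Real.log Y ^ 9 + Real.log T₁) := by ring
        rw [this]
        linarith

end Pool.Agent.Helper29.DC
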