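import Pool.Agent.Helper29.DC.Dual

/-!
# The second moment and high moments of sums over primes
-/

set_option autoImplicit false

namespace Pool.Agent.Helper29.DC

open Finset Pool.Agent.Helper29.QT Pool.Agent.Helper29.UT
open scoped ComplexConjugate

variable {ι : Type} {ψ : ι → ℕ → ℂ} {A : Finset ι} {Q : ℝ} {c : ℕ → ℂ} {M : ℝ}

/-- The twisted sum over the primes up to `T`. -/
noncomputable def FC (ψ : ι → ℕ → ℂ) (c : ℕ → ℂ) (T : ℕ) (i : ι) : ℂ :=
  ∑ p ∈ PR T, ψ i p * (c p * Real.log p)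

/-- The twisted sum over the primes between `z` and `T`. -/
noncomputable def SC (ψ : ι → ℕ → ℂ) (c : ℕ → ℂ) (z T : ℕ) (i : ι) : ℂ :=
  ∑ p ∈ PRz z T, ψ i p * (c p * Real.log p)

/-- From the square to the first power. -/
lemma sq_cancel {X Y : ℝ} (hX : 0 ≤ X) (hY : 0 ≤ Y) (h : X ^ 2 ≤ X * Y) : X ≤ Y := by
  rcases hX.eq_or_lt with h9 | h9
  · rw [← h9]; exact hY
  · rw [sq] at h
    exact le_of_mul_le_mul_left h h9

lemma bessel (h : CF ψ A Q) (hc : ∀ p : ℕ, p.Prime → ‖c p‖ ≤ M) {z T : ℕ}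
    (hz : 1 ≤ z) (hT : T + 1 ≤ (z + 1) ^ 5) :
    ∑ i ∈ A, ‖SC ψ c z T i‖ ^ 2 ≤
      M ^ 2 * (Real.log 4 * T) * (5 * T + Real.log T * ((z : ℝ) ^ 4 * (1 + A.card * Q))) := by
  classical
  have hM : 0 ≤ M := (norm_nonneg _).trans (hc 2 Nat.prime_two)
  obtain ⟨X, hX⟩ : ∃ X, X = ∑ i ∈ A, ‖SC ψ c z T i‖ ^ 2 := ⟨_, rfl⟩
  have hX0 : 0 ≤ X := by rw [hX]; exact Finset.sum_nonneg fun _ _ => sq_nonneg _
  rw [← hX]
  have hlT : 0 ≤ Real.log T := log_nonneg' T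
  have hL : 0 ≤ M ^ 2 * (Real.log 4 * T) :=
    mul_nonneg (sq_nonneg M) (mul_nonneg (Real.log_nonneg (by norm_num)) (Nat.cast_nonneg T))
  have hQ0 := h.Q_nonneg
  have hR0 : 0 ≤ M ^ 2 * (Real.log 4 * T) *
      (5 * T + Real.log T * ((z : ℝ) ^ 4 * (1 + A.card * Q))) := by
    apply mul_nonneg hL
    positivity
  rcases Nat.eq_zero_or_pos T with rfl | hT0
  · have h1 : X = 0 := by
      rw [hX]
      apply Finset.sum_eq_zero
      intro a _
      unfold SC PRz PR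
      simp
    rw [h1]
    exact hR0
  have hT1 : (1 : ℝ) ≤ T := by exact_mod_cast hT0
  -- the vector
  obtain ⟨a, ha⟩ : ∃ a : ι → ℂ, a = fun i => conj (SC ψ c z T i) := ⟨_, rfl⟩
  obtain ⟨F, hF⟩ : ∃ F : ℕ → ℂ, F = fun n => ∑ i ∈ A, a i * ψ i n := ⟨_, rfl⟩
  have hXa : ∑ i ∈ A, ‖a i‖ ^ 2 = X := by
    rw [hX, ha]
    refine Finset.sum_congr rfl fun i _ => ?_
    rw [RCLike.norm_conj]
  have h1 : (X : ℂ) = ∑ p ∈ PRz z T, (c p * Real.log p) * F p := by
    rw [hX, Complex.ofReal_sum]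
    simp_rw [Complex.ofReal_pow]
    have h2 : ∀ i ∈ A, (‖SC ψ c z T i‖ : ℂ) ^ 2 =
        ∑ p ∈ PRz z T, a i * (ψ i p * (c p * Real.log p)) := by
      intro i _
      rw [← Complex.conj_mul', ha, ← Finset.mul_sum]
      rfl
    rw [Finset.sum_congr rfl h2, Finset.sum_comm]
    refine Finset.sum_congr rfl fun p _ => ?_
    rw [hF, Finset.mul_sum]
    exact Finset.sum_congr rfl fun a _ => by ring
  have h1' : X ≤ ∑ p ∈ PRz z T, (‖c p‖ * Real.sqrt (Real.log p)) *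
      (Real.sqrt (Real.log p) * ‖F p‖) := by
    have h2 : X = ‖(X : ℂ)‖ := by
      rw [Complex.norm_real, Real.norm_eq_abs, abs_of_nonneg hX0]
    rw [h2, h1]
    refine (norm_sum_le _ _).trans (Finset.sum_le_sum fun p _ => le_of_eq ?_)
    rw [norm_mul, norm_mul, Complex.norm_real, Real.norm_eq_abs, abs_of_nonneg (log_nonneg' p)]
    have h3 : (‖c p‖ * Real.sqrt (Real.log p)) * (Real.sqrt (Real.log p) * ‖F p‖) =
        (Real.sqrt (Real.log p) * Real.sqrt (Real.log p)) * (‖c p‖ * ‖F p‖) := by ring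
    rw [h3, Real.mul_self_sqrt (log_nonneg' p)]
    ring
  have h2 : X ^ 2 ≤ (∑ p ∈ PRz z T, (‖c p‖ * Real.sqrt (Real.log p)) ^ 2) *
      (∑ p ∈ PRz z T, (Real.sqrt (Real.log p) * ‖F p‖) ^ 2) :=
    (pow_le_pow_left₀ hX0 h1' 2).trans (Finset.sum_mul_sq_le_sq_mul_sq _ _ _)
  have h3 : ∑ p ∈ PRz z T, (‖c p‖ * Real.sqrt (Real.log p)) ^ 2 ≤ M ^ 2 * (Real.log 4 * T) := by
    calc _ ≤ ∑ p ∈ PRz z T, M ^ 2 * Real.log p := by
          refine Finset.sum_le_sum fun p hp => ?_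
          rw [mul_pow, Real.sq_sqrt (log_nonneg' p)]
          apply mul_le_mul_of_nonneg_right _ (log_nonneg' p)
          apply pow_le_pow_left₀ (norm_nonneg _)
          apply hc
          exact (Finset.mem_filter.1 (Finset.mem_filter.1 hp).1).2
      _ = M ^ 2 * ∑ p ∈ PRz z T, Real.log p := by rw [Finset.mul_sum]
      _ ≤ M ^ 2 * ∑ p ∈ PR T, Real.log p := by
          apply mul_le_mul_of_nonneg_left _ (sq_nonneg M)
          exact Finset.sum_le_sum_of_subset_of_nonneg (Finset.filter_subset _ _)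
            fun p _ _ => log_nonneg' p
      _ ≤ _ := mul_le_mul_of_nonneg_left (sum_log_PR T) (sq_nonneg M)
  -- the second factor
  have h4 : ∑ p ∈ PRz z T, (Real.sqrt (Real.log p) * ‖F p‖) ^ 2 ≤
      Real.log T * ∑ n ∈ Icc 1 T, ww z n * ‖F n‖ ^ 2 := by
    calc _ ≤ ∑ p ∈ PRz z T, Real.log T * (ww z p * ‖F p‖ ^ 2) := by
          refine Finset.sum_le_sum fun p hp => ?_
          have hp1 := Finset.mem_filter.1 hp
          have hp2 := Finset.mem_filter.1 hp1.1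
          have hp3 := Finset.mem_Icc.1 hp2.1
          rw [mul_pow, Real.sq_sqrt (log_nonneg' p), ww_prime hz hp2.2 hp1.2, one_mul]
          apply mul_le_mul_of_nonneg_right _ (sq_nonneg _)
          exact Real.log_le_log (by exact_mod_cast hp3.1) (by exact_mod_cast hp3.2)
      _ = Real.log T * ∑ p ∈ PRz z T, ww z p * ‖F p‖ ^ 2 := by rw [Finset.mul_sum]
      _ ≤ _ := by
          apply mul_le_mul_of_nonneg_left _ hlT
          apply Finset.sum_le_sum_of_subset_of_nonneg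
          · intro p hp
            exact (Finset.mem_filter.1 (Finset.mem_filter.1 hp).1).1
          · intro n _ _
            exact mul_nonneg (ww_nonneg z n) (sq_nonneg _)
  obtain ⟨W, hW⟩ : ∃ W : ℝ, W = T / GG z + (z : ℝ) ^ 4 := ⟨_, rfl⟩
  have h6 : ∑ n ∈ Icc 1 T, ww z n * ‖F n‖ ^ 2 ≤ (W + (z : ℝ) ^ 4 * Q * A.card) * X := by
    have h7 := dual (A := A) (ψ := ψ) (Icc 1 T) (v := ww z) (fun n _ => ww_nonneg z n)
      h.norm_le (W := W) (E := (z : ℝ) ^ 4 * Q) (by positivity)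
      (by rw [hW]; exact sum_ww_one hz T)
      (fun i hi j hj hij => norm_sum_ww_small hz _ _ fun D hD => h.pair_dvd hi hj hij T D hD) a
    rw [hXa] at h7
    rw [hF]
    exact h7
  -- the logarithm
  have h7 : Real.log T * W ≤ 5 * T + Real.log T * (z : ℝ) ^ 4 := by
    have hG := GG_pos hz
    have h8 : Real.log T ≤ 5 * GG z := by
      have h9 : Real.log T ≤ Real.log (((z : ℝ) + 1) ^ 5) := by
        apply Real.log_le_log (by linarith)
        have : ((T : ℕ) : ℝ) ≤ (((z + 1) ^ 5 : ℕ) : ℝ) := by exact_mod_cast (by omega)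
        push_cast at this
        exact this
      rw [Real.log_pow] at h9
      have h10 := log_le_GG z
      push_cast at h9
      linarith
    rw [hW, mul_add]
    have h11 : Real.log T * (T / GG z) ≤ 5 * T := by
      rw [← mul_div_assoc, div_le_iff₀ hG]
      have := mul_le_mul_of_nonneg_right h8 (by linarith : (0 : ℝ) ≤ T)
      linarith
    linarith
  apply sq_cancel hX0 hR0
  calc X ^ 2 ≤ _ := h2
    _ ≤ (M ^ 2 * (Real.log 4 * T)) * (Real.log T *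
        ((W + (z : ℝ) ^ 4 * Q * A.card) * X)) := by
        apply mul_le_mul h3 _ (Finset.sum_nonneg fun _ _ => sq_nonneg _) hL
        exact h4.trans (mul_le_mul_of_nonneg_left h6 hlT)
    _ = X * (M ^ 2 * (Real.log 4 * T) * (Real.log T * W +
        Real.log T * ((z : ℝ) ^ 4 * (A.card * Q)))) := by ring
    _ ≤ _ := by
        apply mul_le_mul_of_nonneg_left _ hX0
        apply mul_le_mul_of_nonneg_left _ hL
        have : Real.log T * ((z : ℝ) ^ 4 * (1 + A.card * Q)) =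
          Real.log T * (z : ℝ) ^ 4 + Real.log T * ((z : ℝ) ^ 4 * (A.card * Q)) := by ring
        linarith

lemma psi_prod (h : CF ψ A Q) {i : ι} (hi : i ∈ A) {k : ℕ} (v : Fin k → ℕ) :
    ψ i (∏ l, v l) = ∏ l, ψ i (v l) := by
  induction k with
  | zero => simp [h.one i hi]
  | succ k ih => rw [Fin.prod_univ_succ, Fin.prod_univ_succ, h.mul i hi, ih]

lemma FC_pow (h : CF ψ A Q) {i : ι} (hi : i ∈ A) (c : ℕ → ℂ) (T k : ℕ) :
    FC ψ c T i ^ k = ∑ v ∈ tup k T, ψ i (∏ l, v l) * ∏ l, (c (v l) * Real.log (v l)) := by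
  classical
  have h1 : FC ψ c T i ^ k = ∏ _l : Fin k, ∑ p ∈ PR T, ψ i p * (c p * Real.log p) := by
    rw [Finset.prod_const, Finset.card_univ, Fintype.card_fin]
    rfl
  rw [h1, Finset.prod_univ_sum]
  refine Finset.sum_congr rfl fun v _ => ?_
  rw [Finset.prod_mul_distrib, psi_prod h hi]

/-- The bound for high moments. -/
theorem high (h : CF ψ A Q) (hc : ∀ p : ℕ, p.Prime → ‖c p‖ ≤ M) (k : ℕ) {T : ℕ} :
    ∑ i ∈ A, (‖FC ψ c T i‖ ^ k) ^ 2 ≤
      (M ^ 2 * (Real.log T * (Real.log 4 * T))) ^ k * ((Nat.log 2 (T ^ k) : ℝ) ^ k *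
        ((T : ℝ) ^ k + Q * A.card)) := by
  classical
  have hQ0 := h.Q_nonneg
  obtain ⟨X, hX⟩ : ∃ X, X = ∑ i ∈ A, (‖FC ψ c T i‖ ^ k) ^ 2 := ⟨_, rfl⟩
  have hX0 : 0 ≤ X := by rw [hX]; exact Finset.sum_nonneg fun _ _ => sq_nonneg _
  rw [← hX]
  have hL : 0 ≤ (M ^ 2 * (Real.log T * (Real.log 4 * T))) ^ k := by
    apply pow_nonneg
    exact mul_nonneg (sq_nonneg M) (mul_nonneg (log_nonneg' T)
      (mul_nonneg (Real.log_nonneg (by norm_num)) (Nat.cast_nonneg T)))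
  have hD : (0 : ℝ) ≤ (Nat.log 2 (T ^ k) : ℝ) ^ k := by positivity
  obtain ⟨a, ha⟩ : ∃ a : ι → ℂ, a = fun i => conj (FC ψ c T i ^ k) := ⟨_, rfl⟩
  obtain ⟨F, hF⟩ : ∃ F : ℕ → ℂ, F = fun n => ∑ i ∈ A, a i * ψ i n := ⟨_, rfl⟩
  obtain ⟨w, hw⟩ : ∃ w : (Fin k → ℕ) → ℂ, w = fun v => ∏ l, (c (v l) * Real.log (v l)) :=
    ⟨_, rfl⟩
  have hXa : ∑ i ∈ A, ‖a i‖ ^ 2 = X := by
    rw [hX, ha]
    refine Finset.sum_congr rfl fun i _ => ?_
    rw [RCLike.norm_conj, norm_pow]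
  have h1 : (X : ℂ) = ∑ v ∈ tup k T, w v * F (∏ l, v l) := by
    rw [hX, Complex.ofReal_sum]
    simp_rw [Complex.ofReal_pow]
    have h2 : ∀ i ∈ A, ((‖FC ψ c T i‖ : ℂ) ^ k) ^ 2 =
        ∑ v ∈ tup k T, a i * (ψ i (∏ l, v l) * w v) := by
      intro i hi
      have h3 : ((‖FC ψ c T i‖ : ℂ) ^ k) ^ 2 = conj (FC ψ c T i ^ k) * FC ψ c T i ^ k := by
        rw [Complex.conj_mul', norm_pow]
        push_cast
        rfl
      rw [h3, ← Finset.mul_sum, ha, hw]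
      congr 1
      exact FC_pow h hi c T k
    rw [Finset.sum_congr rfl h2, Finset.sum_comm]
    refine Finset.sum_congr rfl fun v _ => ?_
    rw [hF, Finset.mul_sum]
    exact Finset.sum_congr rfl fun a _ => by ring
  have h1' : X ≤ ∑ v ∈ tup k T, ‖w v‖ * ‖F (∏ l, v l)‖ := by
    have h2 : X = ‖(X : ℂ)‖ := by
      rw [Complex.norm_real, Real.norm_eq_abs, abs_of_nonneg hX0]
    rw [h2, h1]
    exact (norm_sum_le _ _).trans (Finset.sum_le_sum fun v _ => (norm_mul _ _).le)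
  have h2 : X ^ 2 ≤ (∑ v ∈ tup k T, ‖w v‖ ^ 2) * (∑ v ∈ tup k T, ‖F (∏ l, v l)‖ ^ 2) :=
    (pow_le_pow_left₀ hX0 h1' 2).trans (Finset.sum_mul_sq_le_sq_mul_sq _ _ _)
  have h3 : ∑ v ∈ tup k T, ‖w v‖ ^ 2 ≤ (M ^ 2 * (Real.log T * (Real.log 4 * T))) ^ k := by
    have e1 : ∑ v ∈ tup k T, ‖w v‖ ^ 2 = (∑ p ∈ PR T, (‖c p‖ * Real.log p) ^ 2) ^ k := by
      have e2 : (∑ p ∈ PR T, (‖c p‖ * Real.log p) ^ 2) ^ k =
          ∏ _i : Fin k, ∑ p ∈ PR T, (‖c p‖ * Real.log p) ^ 2 := by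
        rw [Finset.prod_const, Finset.card_univ, Fintype.card_fin]
      rw [e2, Finset.prod_univ_sum]
      refine Finset.sum_congr rfl fun v _ => ?_
      rw [hw, norm_prod, ← Finset.prod_pow]
      refine Finset.prod_congr rfl fun l _ => ?_
      rw [norm_mul, Complex.norm_real, Real.norm_eq_abs, abs_of_nonneg (log_nonneg' _)]
    rw [e1]
    exact pow_le_pow_left₀ (Finset.sum_nonneg fun _ _ => sq_nonneg _)
      (sum_sq_le (c := fun p => ‖c p‖) (fun p hp => by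
        rw [abs_of_nonneg (norm_nonneg _)]; exact hc p hp) T) k
  have h4 : ∑ v ∈ tup k T, ‖F (∏ l, v l)‖ ^ 2 ≤
      (Nat.log 2 (T ^ k) : ℝ) ^ k * ∑ n ∈ Icc 1 (T ^ k), 1 * ‖F n‖ ^ 2 := by
    rw [← Finset.sum_fiberwise_of_maps_to (fun v hv => prod_mem hv), Finset.mul_sum]
    refine Finset.sum_le_sum fun n hn => ?_
    have hn1 := Finset.mem_Icc.1 hn
    have e1 : ∑ v ∈ (tup k T).filter (fun v => ∏ i, v i = n), ‖F (∏ i, v i)‖ ^ 2 =
        ((tup k T).filter (fun v => ∏ i, v i = n)).card * ‖F n‖ ^ 2 := by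
      rw [← nsmul_eq_mul, ← Finset.sum_const]
      refine Finset.sum_congr rfl fun v hv => ?_
      rw [(Finset.mem_filter.1 hv).2]
    rw [e1, one_mul]
    apply mul_le_mul_of_nonneg_right _ (sq_nonneg _)
    have e2 := fibre_le (k := k) (T := T) (n := n) (by omega)
    have e3 : (Nat.log 2 n) ^ k ≤ (Nat.log 2 (T ^ k)) ^ k :=
      Nat.pow_le_pow_left (Nat.log_mono_right hn1.2) k
    exact_mod_cast e2.trans e3
  have h6 : ∑ n ∈ Icc 1 (T ^ k), 1 * ‖F n‖ ^ 2 ≤ ((T : ℝ) ^ k + Q * A.card) * X := by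
    have h7 := dual (A := A) (ψ := ψ) (Icc 1 (T ^ k)) (v := fun _ => 1) (fun n _ => zero_le_one)
      h.norm_le (W := (T : ℝ) ^ k) (E := Q) hQ0
      (by rw [Finset.sum_const, Nat.card_Icc, nsmul_eq_mul, mul_one, Nat.add_sub_cancel]
          push_cast
          exact le_rfl)
      (fun i hi j hj hij => by
        have := h.pair i hi j hj hij (T ^ k)
        simpa using this) a
    rw [hXa] at h7
    rw [hF]
    exact h7
  have hR0 : 0 ≤ (M ^ 2 * (Real.log T * (Real.log 4 * T))) ^ k *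
      ((Nat.log 2 (T ^ k) : ℝ) ^ k * ((T : ℝ) ^ k + Q * A.card)) := by
    apply mul_nonneg hL
    positivity
  apply sq_cancel hX0 hR0
  calc X ^ 2 ≤ _ := h2
    _ ≤ (M ^ 2 * (Real.log T * (Real.log 4 * T))) ^ k * ((Nat.log 2 (T ^ k) : ℝ) ^ k *
        (((T : ℝ) ^ k + Q * A.card) * X)) := by
        apply mul_le_mul h3 _ (Finset.sum_nonneg fun _ _ => sq_nonneg _) hL
        exact h4.trans (mul_le_mul_of_nonneg_left h6 hD)
    _ = _ := by ring

end Pool.Agent.Helper29.DC
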