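import Pool.Agent.Helper29.DC.Mom
import Pool.Agent.Helper29.UT.Grid2

/-!
# The number of exceptional characters at one scale and in a range of scales
-/

set_option autoImplicit false

namespace Pool.Agent.Helper29.DC

open Finset Filter Topology Pool.Agent.Helper29.QT Pool.Agent.Helper29.UT

variable {ι : Type} {ψ : ι → ℕ → ℂ} {A : Finset ι} {c : ℕ → ℂ} {M : ℝ}

/-- A family of at most `Y ^ 2` functions with correlations bounded by `Y ^ 2`. -/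
structure YF (ψ : ι → ℕ → ℂ) (A : Finset ι) (Y : ℕ) : Prop where
  cf : CF ψ A ((Y : ℝ) ^ 2)
  card : A.card ≤ Y ^ 2

lemma YF.cardR {Y : ℕ} (h : YF ψ A Y) : (A.card : ℝ) ≤ (Y : ℝ) ^ 2 := by
  exact_mod_cast h.card

lemma FC_sub (hψ : ∀ i ∈ A, ∀ n, ‖ψ i n‖ ≤ 1) (hc : ∀ p : ℕ, p.Prime → ‖c p‖ ≤ M) (z T : ℕ)
    {i : ι} (hi : i ∈ A) : ‖FC ψ c T i - SC ψ c z T i‖ ≤ M * (Real.log 4 * z) := by
  have hM : 0 ≤ M := (norm_nonneg _).trans (hc 2 Nat.prime_two)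
  have h1 : FC ψ c T i - SC ψ c z T i = ∑ p ∈ (PR T).filter (fun p => ¬ z < p),
      ψ i p * (c p * Real.log p) := by
    unfold FC SC PRz
    rw [← Finset.sum_filter_add_sum_filter_not (PR T) (z < ·)]
    ring
  rw [h1]
  calc _ ≤ ∑ p ∈ (PR T).filter (fun p => ¬ z < p), ‖ψ i p * (c p * Real.log p)‖ :=
        norm_sum_le _ _
    _ ≤ ∑ p ∈ (PR T).filter (fun p => ¬ z < p), M * Real.log p := by
        refine Finset.sum_le_sum fun p hp => ?_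
        rw [norm_mul, norm_mul, Complex.norm_real, Real.norm_eq_abs,
          abs_of_nonneg (log_nonneg' p)]
        have h2 := hc p (Finset.mem_filter.1 (Finset.mem_filter.1 hp).1).2
        calc ‖ψ i p‖ * (‖c p‖ * Real.log p) ≤ 1 * (M * Real.log p) := by
              apply mul_le_mul (hψ i hi p) _ (mul_nonneg (norm_nonneg _) (log_nonneg' p))
                zero_le_one
              exact mul_le_mul_of_nonneg_right h2 (log_nonneg' p)
          _ = _ := one_mul _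
    _ = M * ∑ p ∈ (PR T).filter (fun p => ¬ z < p), Real.log p := by rw [Finset.mul_sum]
    _ ≤ M * ∑ p ∈ PR z, Real.log p := by
        apply mul_le_mul_of_nonneg_left _ hM
        apply Finset.sum_le_sum_of_subset_of_nonneg
        · intro p hp
          have h2 := Finset.mem_filter.1 hp
          have h3 := Finset.mem_filter.1 h2.1
          have h4 := Finset.mem_Icc.1 h3.1
          exact Finset.mem_filter.2 ⟨Finset.mem_Icc.2 ⟨h4.1, not_lt.1 h2.2⟩, h3.2⟩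
        · intro p _ _
          exact log_nonneg' p
    _ ≤ _ := mul_le_mul_of_nonneg_left (sum_log_PR z) hM

lemma nat_log_le4 {G : ℕ} (hG : 1 ≤ G) : (Nat.log 2 (G ^ 4) : ℝ) ≤ 6 * Real.log G := by
  have h1 : 2 ^ Nat.log 2 (G ^ 4) ≤ G ^ 4 := Nat.pow_log_le_self 2 (by positivity)
  have h2 : ((2 : ℝ)) ^ Nat.log 2 (G ^ 4) ≤ (G : ℝ) ^ 4 := by exact_mod_cast h1
  have h3 := Real.log_le_log (by positivity) h2
  rw [Real.log_pow, Real.log_pow] at h3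
  have h4 := Real.log_two_gt_d9
  have h5 := log_nonneg' G
  have h6 : (0 : ℝ) ≤ (Nat.log 2 (G ^ 4) : ℝ) := Nat.cast_nonneg _
  push_cast at h3
  nlinarith

open Classical in
lemma bad_low {Y : ℕ} (h : YF ψ A Y) (hc : ∀ p : ℕ, p.Prime → ‖c p‖ ≤ M) {ε : ℝ} (hε : 0 < ε)
    {G : ℕ} (hG : 2 ≤ G) (hY : Y ≤ 2 * G) :
    ((A.filter fun i => ε * G < ‖FC ψ c G i‖).card : ℝ) ≤
      10 ^ 5 * (M / ε) ^ 8 * Real.log G ^ 8 := by
  have hG0 : (0 : ℝ) < G := by exact_mod_cast (by omega : 0 < G)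
  have hM : 0 ≤ M := (norm_nonneg _).trans (hc 2 Nat.prime_two)
  have hlG := log_nonneg' G
  have hl4 : 0 ≤ Real.log 4 := Real.log_nonneg (by norm_num)
  have h1 := high h.cf hc 4 (T := G)
  have h2 : ((A.filter fun i => ε * G < ‖FC ψ c G i‖).card : ℝ) * (ε * G) ^ 8 ≤
      ∑ i ∈ A, (‖FC ψ c G i‖ ^ 4) ^ 2 := by
    rw [← nsmul_eq_mul, ← Finset.sum_const]
    refine (Finset.sum_le_sum fun a ha => ?_).trans
      (Finset.sum_le_sum_of_subset_of_nonneg (Finset.filter_subset _ _)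
        fun _ _ _ => sq_nonneg _)
    have h3 := (Finset.mem_filter.1 ha).2
    rw [← pow_mul]
    exact pow_le_pow_left₀ (by positivity) h3.le 8
  have h3 : (G : ℝ) ^ 4 + (Y : ℝ) ^ 2 * A.card ≤ 17 * (G : ℝ) ^ 4 := by
    have e1 := h.cardR
    have e2 : (Y : ℝ) ≤ 2 * (G : ℝ) := by exact_mod_cast hY
    have e3 : (Y : ℝ) ^ 2 * A.card ≤ (Y : ℝ) ^ 2 * (Y : ℝ) ^ 2 :=
      mul_le_mul_of_nonneg_left e1 (by positivity)
    have e4 : (Y : ℝ) ^ 4 ≤ (2 * (G : ℝ)) ^ 4 := pow_le_pow_left₀ (by positivity) e2 4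
    nlinarith
  have h4 : (Nat.log 2 (G ^ 4) : ℝ) ^ 4 ≤ (6 * Real.log G) ^ 4 :=
    pow_le_pow_left₀ (Nat.cast_nonneg _) (nat_log_le4 (by omega)) 4
  have h5 : (M ^ 2 * (Real.log G * (Real.log 4 * G))) ^ 4 ≤
      (M ^ 2 * (Real.log G * (1.3863 * G))) ^ 4 := by
    apply pow_le_pow_left₀ (by positivity)
    apply mul_le_mul_of_nonneg_left _ (sq_nonneg M)
    apply mul_le_mul_of_nonneg_left _ hlG
    exact mul_le_mul_of_nonneg_right log_four_lt hG0.le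
  have h6 : ((A.filter fun i => ε * G < ‖FC ψ c G i‖).card : ℝ) * (ε * G) ^ 8 ≤
      (M ^ 2 * (Real.log G * (1.3863 * G))) ^ 4 * ((6 * Real.log G) ^ 4 * (17 * (G : ℝ) ^ 4)) := by
    refine h2.trans (h1.trans ?_)
    apply mul_le_mul h5 _ (by positivity) (by positivity)
    exact mul_le_mul h4 h3 (by positivity) (by positivity)
  have h7 : (M ^ 2 * (Real.log G * (1.3863 * G))) ^ 4 *
      ((6 * Real.log G) ^ 4 * (17 * (G : ℝ) ^ 4)) ≤
      (10 ^ 5 * (M / ε) ^ 8 * Real.log G ^ 8) * (ε * G) ^ 8 := by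
    have e1 : (10 ^ 5 * (M / ε) ^ 8 * Real.log G ^ 8) * (ε * G) ^ 8 =
        10 ^ 5 * (M ^ 8 * Real.log G ^ 8 * (G : ℝ) ^ 8) := by
      field_simp
    have e2 : (M ^ 2 * (Real.log G * (1.3863 * G))) ^ 4 *
        ((6 * Real.log G) ^ 4 * (17 * (G : ℝ) ^ 4)) =
        (1.3863 ^ 4 * 6 ^ 4 * 17) * (M ^ 8 * Real.log G ^ 8 * (G : ℝ) ^ 8) := by ring
    rw [e1, e2]
    apply mul_le_mul_of_nonneg_right _ (by positivity)
    norm_num
  exact le_of_mul_le_mul_right (h6.trans h7) (by positivity)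

lemma log_mul_le' : ∀ᶠ G : ℕ in atTop,
    Real.log G * (4 * (G : ℝ) ^ ((29 : ℝ) / 30)) ≤ 1 / 1000 * G := by
  have h1 : Tendsto (fun x : ℝ => Real.log x / x ^ ((1 : ℝ) / 30)) atTop (𝓝 0) :=
    (isLittleO_log_rpow_atTop (by norm_num : (0 : ℝ) < 1 / 30)).tendsto_div_nhds_zero
  have h2 := (h1.comp tendsto_natCast_atTop_atTop).eventually
    (Metric.ball_mem_nhds (0 : ℝ) (by norm_num : (0 : ℝ) < 1 / 4000))
  filter_upwards [h2, eventually_ge_atTop 1] with G hG hG1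
  have hG0 : (0 : ℝ) < G := by exact_mod_cast hG1
  have h3 := Metric.mem_ball.1 hG
  rw [Real.dist_eq, sub_zero, Function.comp_apply] at h3
  have h4 := (le_abs_self _).trans h3.le
  have h5 : 0 < (G : ℝ) ^ ((1 : ℝ) / 30) := Real.rpow_pos_of_pos hG0 _
  rw [div_le_iff₀ h5] at h4
  have h6 : 0 < (G : ℝ) ^ ((29 : ℝ) / 30) := Real.rpow_pos_of_pos hG0 _
  have h7 : (G : ℝ) = (G : ℝ) ^ ((1 : ℝ) / 30) * (G : ℝ) ^ ((29 : ℝ) / 30) := by
    rw [← Real.rpow_add hG0]; norm_num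
  calc Real.log G * (4 * (G : ℝ) ^ ((29 : ℝ) / 30)) ≤
      (1 / 4000 * (G : ℝ) ^ ((1 : ℝ) / 30)) * (4 * (G : ℝ) ^ ((29 : ℝ) / 30)) :=
        mul_le_mul_of_nonneg_right h4 (by positivity)
    _ = 1 / 1000 * ((G : ℝ) ^ ((1 : ℝ) / 30) * (G : ℝ) ^ ((29 : ℝ) / 30)) := by ring
    _ = _ := by rw [← h7]

lemma fourth_le {Y G : ℕ} (hG : 1 ≤ G) (h : Y ^ 24 ≤ 2 * G) :
    (Y : ℝ) ^ 4 ≤ 2 * (G : ℝ) ^ ((1 : ℝ) / 6) := by
  have hG0 : (0 : ℝ) < G := by exact_mod_cast hG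
  have h1 : (Y : ℝ) ^ 24 ≤ 2 * G := by exact_mod_cast h
  have h2 : (Y : ℝ) ^ 4 = ((Y : ℝ) ^ 24) ^ ((1 : ℝ) / 6) := by
    rw [← Real.rpow_natCast, ← Real.rpow_natCast, ← Real.rpow_mul (Nat.cast_nonneg Y)]
    norm_num
  rw [h2]
  calc ((Y : ℝ) ^ 24) ^ ((1 : ℝ) / 6) ≤ (2 * (G : ℝ)) ^ ((1 : ℝ) / 6) :=
        Real.rpow_le_rpow (by positivity) h1 (by norm_num)
    _ = 2 ^ ((1 : ℝ) / 6) * (G : ℝ) ^ ((1 : ℝ) / 6) :=
        Real.mul_rpow (by norm_num) hG0.le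
    _ ≤ 2 * (G : ℝ) ^ ((1 : ℝ) / 6) := by
        apply mul_le_mul_of_nonneg_right _ (Real.rpow_nonneg hG0.le _)
        calc (2 : ℝ) ^ ((1 : ℝ) / 6) ≤ 2 ^ (1 : ℝ) :=
              Real.rpow_le_rpow_of_exponent_le (by norm_num) (by norm_num)
          _ = 2 := Real.rpow_one 2

open Classical in
/-- At a large scale the number of exceptional characters is bounded. -/
lemma bad_high (M : ℝ) {ε : ℝ} (hε : 0 < ε) :
    ∃ G₂ : ℕ, 2 ≤ G₂ ∧ ∀ (ι : Type) (ψ : ι → ℕ → ℂ) (A : Finset ι) (c : ℕ → ℂ),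
      (∀ p : ℕ, p.Prime → ‖c p‖ ≤ M) → ∀ G Y : ℕ, YF ψ A Y → G₂ ≤ G → Y ^ 24 ≤ 2 * G →
      ((A.filter fun i => ε * G < ‖FC ψ c G i‖).card : ℝ) * ε ^ 2 ≤ 7 * M ^ 2 := by
  have e2 : ∀ᶠ T : ℕ in atTop, |(M * Real.log 4) * (zz T : ℝ) / T| < ε / 500 := by
    have h1 := (tendsto_small' (M * Real.log 4)).eventually
      (Metric.ball_mem_nhds (0 : ℝ) (by positivity : 0 < ε / 500))
    filter_upwards [h1] with T hT
    have hT' := Metric.mem_ball.1 hT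
    rw [Real.dist_eq, sub_zero] at hT'
    exact hT'
  obtain ⟨G₂, hG₂⟩ := Filter.eventually_atTop.1 (e2.and log_mul_le')
  refine ⟨max G₂ 2, le_max_right _ _, fun ι ψ A c hc G Y h hG hY => ?_⟩
  obtain ⟨h2, h3⟩ := hG₂ G ((le_max_left _ _).trans hG)
  have hG2 : 2 ≤ G := (le_max_right _ _).trans hG
  have hG0 : (0 : ℝ) < G := by exact_mod_cast (by omega : 0 < G)
  have hlG := log_nonneg' G
  rcases A.eq_empty_or_nonempty with hA0 | hA0
  · rw [hA0, Finset.filter_empty, Finset.card_empty, Nat.cast_zero, zero_mul]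
    positivity
  have hY1 : 1 ≤ Y := by
    rcases Nat.eq_zero_or_pos Y with h0 | h0
    · exfalso
      have h4 := h.card
      rw [h0] at h4
      have h5 := Finset.card_pos.2 hA0
      omega
    · exact h0
  have hb := bessel h.cf hc (one_le_zz (by omega : 1 ≤ G)) (lt_zz G)
  have h4 : ∀ i ∈ A.filter (fun i => ε * G < ‖FC ψ c G i‖),
      (996 / 1000 * ε ^ 2) * (G : ℝ) ^ 2 ≤ ‖SC ψ c (zz G) G i‖ ^ 2 := by
    intro i hi
    obtain ⟨hi1, hi2⟩ := Finset.mem_filter.1 hi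
    have h6 := FC_sub h.cf.norm_le hc (zz G) G hi1
    have h7 : M * (Real.log 4 * (zz G : ℝ)) ≤ ε / 500 * G := by
      have := (le_abs_self _).trans h2.le
      rw [div_le_iff₀ hG0] at this
      linarith
    have h8 : 998 / 1000 * ε * G ≤ ‖SC ψ c (zz G) G i‖ := by
      have h9 : ‖FC ψ c G i‖ ≤ ‖FC ψ c G i - SC ψ c (zz G) G i‖ + ‖SC ψ c (zz G) G i‖ := by
        have := norm_add_le (FC ψ c G i - SC ψ c (zz G) G i) (SC ψ c (zz G) G i)
        rw [sub_add_cancel] at this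
        exact this
      linarith
    refine le_trans ?_ (pow_le_pow_left₀ (by positivity) h8 2)
    have : 0 ≤ ε ^ 2 * (G : ℝ) ^ 2 := by positivity
    nlinarith
  have h5 : ((A.filter fun i => ε * G < ‖FC ψ c G i‖).card : ℝ) *
      ((996 / 1000 * ε ^ 2) * (G : ℝ) ^ 2) ≤ ∑ i ∈ A, ‖SC ψ c (zz G) G i‖ ^ 2 := by
    rw [← nsmul_eq_mul, ← Finset.sum_const]
    exact (Finset.sum_le_sum h4).trans
      (Finset.sum_le_sum_of_subset_of_nonneg (Finset.filter_subset _ _) fun _ _ _ => sq_nonneg _)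
  have h6 : M ^ 2 * (Real.log 4 * G) * (5 * G + Real.log G * ((zz G : ℝ) ^ 4 *
      (1 + A.card * (Y : ℝ) ^ 2))) ≤ 6.94 * M ^ 2 * (G : ℝ) ^ 2 := by
    have h7 : Real.log G * ((zz G : ℝ) ^ 4 * (1 + A.card * (Y : ℝ) ^ 2)) ≤
        1 / 1000 * G := by
      refine le_trans ?_ h3
      apply mul_le_mul_of_nonneg_left _ hlG
      have e1 := h.cardR
      have e2 : (1 : ℝ) ≤ Y := by exact_mod_cast hY1
      have e3 : 1 + (A.card : ℝ) * (Y : ℝ) ^ 2 ≤ 2 * (Y : ℝ) ^ 4 := by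
        have e4 : (A.card : ℝ) * (Y : ℝ) ^ 2 ≤ (Y : ℝ) ^ 2 * (Y : ℝ) ^ 2 :=
          mul_le_mul_of_nonneg_right e1 (by positivity)
        have e5 : (1 : ℝ) ≤ (Y : ℝ) ^ 4 := one_le_pow₀ e2
        nlinarith
      have e4 : 1 + (A.card : ℝ) * (Y : ℝ) ^ 2 ≤ 4 * (G : ℝ) ^ ((1 : ℝ) / 6) := by
        have := fourth_le (by omega : 1 ≤ G) hY
        linarith
      calc (zz G : ℝ) ^ 4 * (1 + (A.card : ℝ) * (Y : ℝ) ^ 2) ≤
          (G : ℝ) ^ ((4 : ℝ) / 5) * (4 * (G : ℝ) ^ ((1 : ℝ) / 6)) :=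
            mul_le_mul (zz_pow_le G) e4 (by positivity) (Real.rpow_nonneg hG0.le _)
        _ = 4 * (G : ℝ) ^ ((29 : ℝ) / 30) := by
            have : (G : ℝ) ^ ((29 : ℝ) / 30) = (G : ℝ) ^ ((4 : ℝ) / 5) * (G : ℝ) ^ ((1 : ℝ) / 6) := by
              rw [← Real.rpow_add hG0]; norm_num
            rw [this]; ring
    calc _ ≤ M ^ 2 * (Real.log 4 * G) * (5 * G + 1 / 1000 * G) := by
          apply mul_le_mul_of_nonneg_left _ (by positivity)
          linarith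
      _ = (Real.log 4 * 5.001) * (M ^ 2 * (G : ℝ) ^ 2) := by ring
      _ ≤ 6.94 * (M ^ 2 * (G : ℝ) ^ 2) := by
          apply mul_le_mul_of_nonneg_right _ (by positivity)
          linarith [log_four_lt]
      _ = _ := by ring
  have h7 := (h5.trans hb).trans h6
  have h8 : ((A.filter fun i => ε * G < ‖FC ψ c G i‖).card : ℝ) * (996 / 1000 * ε ^ 2) ≤
      6.94 * M ^ 2 := by
    have h9 : (0 : ℝ) < (G : ℝ) ^ 2 := by positivity
    apply le_of_mul_le_mul_right _ h9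
    linarith
  nlinarith [sq_nonneg M]

lemma FC_near (hψ : ∀ i ∈ A, ∀ n, ‖ψ i n‖ ≤ 1) (hc : ∀ p : ℕ, p.Prime → ‖c p‖ ≤ M) {x t : ℕ}
    (h : x ≤ t) {i : ι} (hi : i ∈ A) :
    ‖FC ψ c t i - FC ψ c x i‖ ≤ M * ∑ p ∈ (Ioc x t).filter Nat.Prime, Real.log p := by
  have h1 : FC ψ c t i - FC ψ c x i =
      ∑ p ∈ (Ioc x t).filter Nat.Prime, ψ i p * (c p * Real.log p) := by
    unfold FC PR
    rw [Icc_split h Nat.Prime]
    ring
  rw [h1]
  refine (norm_sum_le _ _).trans ?_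
  rw [Finset.mul_sum]
  refine Finset.sum_le_sum fun p hp => ?_
  rw [norm_mul, norm_mul, Complex.norm_real, Real.norm_eq_abs, abs_of_nonneg (log_nonneg' p)]
  have h2 := hc p (Finset.mem_filter.1 hp).2
  calc ‖ψ i p‖ * (‖c p‖ * Real.log p) ≤ 1 * (M * Real.log p) := by
        apply mul_le_mul (hψ i hi p) _ (mul_nonneg (norm_nonneg _) (log_nonneg' p)) zero_le_one
        exact mul_le_mul_of_nonneg_right h2 (log_nonneg' p)
    _ = _ := one_mul _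

/-- Reduction to the scales of the grid. -/
lemma to_grid (hψ : ∀ i ∈ A, ∀ n, ‖ψ i n‖ ≤ 1) (hc : ∀ p : ℕ, p.Prime → ‖c p‖ ≤ M) {ε δ : ℝ}
    (hδ : 0 < δ) (hMδ : 11 * δ * M ≤ ε / 2) {X₀ : ℕ}
    (hX : ∀ x t : ℕ, X₀ ≤ x → x ≤ t → (t : ℝ) ≤ (1 + δ) * x →
      ∑ p ∈ (Ioc x t).filter Nat.Prime, Real.log p ≤ 11 * δ * x)
    {T : ℕ} (hT : 1 ≤ T) (hXT : X₀ ≤ gr δ (ix δ T)) (hε : 0 < ε) {i : ι} (hi : i ∈ A)
    (h : ε * T < ‖FC ψ c T i‖) :
    ε / 2 * gr δ (ix δ T) < ‖FC ψ c (gr δ (ix δ T)) i‖ := by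
  have hM : 0 ≤ M := (norm_nonneg _).trans (hc 2 Nat.prime_two)
  obtain ⟨G, hG⟩ : ∃ G, G = gr δ (ix δ T) := ⟨_, rfl⟩
  rw [← hG] at hXT ⊢
  have hGT : G ≤ T := by rw [hG]; exact gr_ix_le hδ hT
  have hTG : (T : ℝ) ≤ (1 + δ) * G := by rw [hG]; exact le_gr_ix hδ hT
  have h1 := FC_near hψ hc hGT hi
  have h2 := mul_le_mul_of_nonneg_left (hX G T hXT hGT hTG) hM
  have h3 : ‖FC ψ c T i‖ ≤ ‖FC ψ c T i - FC ψ c G i‖ + ‖FC ψ c G i‖ := by
    have := norm_add_le (FC ψ c T i - FC ψ c G i) (FC ψ c G i)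
    rw [sub_add_cancel] at this
    exact this
  have h4 : (G : ℝ) ≤ T := by exact_mod_cast hGT
  have hG0 : (0 : ℝ) ≤ G := Nat.cast_nonneg G
  have h5 : M * (11 * δ * G) ≤ ε / 2 * G := by
    have := mul_le_mul_of_nonneg_right hMδ hG0
    linarith
  have h6 : ε * G ≤ ε * T := mul_le_mul_of_nonneg_left h4 hε.le
  linarith

end Pool.Agent.Helper29.DC
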