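import Pool.Agent.Helper29.DC.Char
import Pool.Agent.Helper29.UT.Small

/-!
# The range of scales below the conductors
-/

set_option autoImplicit false

namespace Pool.Agent.Helper29.DC

open Finset Filter Topology Pool.Agent.Helper29.QT Pool.Agent.Helper29.UT
  Pool.Agent.Helper29.TT
open scoped ComplexConjugate

lemma conj_char {q : ℕ} [NeZero q] (χ : DirichletCharacter ℂ q) {a : ZMod q} (ha : IsUnit a) :
    conj (χ a) = χ a⁻¹ := by
  have h1 : conj (χ a) = χ⁻¹ a := MulChar.star_apply' χ a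
  rw [h1]
  have h2 : χ⁻¹ a * χ a = 1 := by
    rw [← MulChar.mul_apply, inv_mul_cancel, MulChar.one_apply ha]
  have h3 : χ a⁻¹ * χ a = 1 := by
    rw [← map_mul, ZMod.inv_mul_of_unit a ha, map_one]
  have h4 : χ a ≠ 0 := right_ne_zero_of_mul_eq_one h3
  exact mul_right_cancel₀ h4 (h2.trans h3.symm)

lemma orth {q : ℕ} [NeZero q] (m m' : ℕ) :
    ‖∑ χ : DirichletCharacter ℂ q, χ (m : ZMod q) * conj (χ (m' : ZMod q))‖ ≤
      if (m' : ZMod q) = (m : ZMod q) then (q : ℝ) else 0 := by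
  by_cases hu : IsUnit (m' : ZMod q)
  · have h1 : ∑ χ : DirichletCharacter ℂ q, χ (m : ZMod q) * conj (χ (m' : ZMod q)) =
        if (m' : ZMod q) = (m : ZMod q) then (q.totient : ℂ) else 0 := by
      rw [← DirichletCharacter.sum_char_inv_mul_char_eq ℂ hu (m : ZMod q)]
      refine Finset.sum_congr rfl fun χ _ => ?_
      rw [conj_char χ hu, mul_comm]
    rw [h1]
    split_ifs with h2
    · rw [Complex.norm_natCast]
      exact_mod_cast Nat.totient_le q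
    · rw [norm_zero]
  · have h1 : ∑ χ : DirichletCharacter ℂ q, χ (m : ZMod q) * conj (χ (m' : ZMod q)) = 0 := by
      refine Finset.sum_eq_zero fun χ _ => ?_
      rw [χ.map_nonunit hu, map_zero, mul_zero]
    rw [h1, norm_zero]
    split_ifs
    · positivity
    · exact le_rfl

/-- The second moment over all characters of one level. -/
lemma second_q {q : ℕ} [NeZero q] (a : ℕ → ℂ) (I : Finset ℕ) {B : ℝ}
    (hB : ∀ m ∈ I, (q : ℝ) * ((I.filter fun m' : ℕ => (m' : ZMod q) = (m : ZMod q)).card : ℝ) ≤ B) :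
    ∑ χ : DirichletCharacter ℂ q, ‖∑ m ∈ I, χ (m : ZMod q) * a m‖ ^ 2 ≤
      B * ∑ m ∈ I, ‖a m‖ ^ 2 := by
  have e1 : ((∑ χ : DirichletCharacter ℂ q, ‖∑ m ∈ I, χ (m : ZMod q) * a m‖ ^ 2 : ℝ) : ℂ) =
      ∑ m ∈ I, ∑ m' ∈ I, (a m * conj (a m')) *
        ∑ χ : DirichletCharacter ℂ q, χ (m : ZMod q) * conj (χ (m' : ZMod q)) := by
    push_cast
    have e2 : ∀ χ : DirichletCharacter ℂ q, ((‖∑ m ∈ I, χ (m : ZMod q) * a m‖ : ℂ)) ^ 2 =
        ∑ m ∈ I, ∑ m' ∈ I, (a m * conj (a m')) *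
          (χ (m : ZMod q) * conj (χ (m' : ZMod q))) := by
      intro χ
      rw [← Complex.mul_conj', map_sum, Finset.sum_mul_sum]
      refine Finset.sum_congr rfl fun m _ => Finset.sum_congr rfl fun m' _ => ?_
      rw [map_mul]
      ring
    rw [Finset.sum_congr rfl fun χ _ => e2 χ, Finset.sum_comm]
    refine Finset.sum_congr rfl fun m _ => ?_
    rw [Finset.sum_comm]
    refine Finset.sum_congr rfl fun m' _ => ?_
    rw [Finset.mul_sum]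
  have e3 : ∑ χ : DirichletCharacter ℂ q, ‖∑ m ∈ I, χ (m : ZMod q) * a m‖ ^ 2 =
      ‖((∑ χ : DirichletCharacter ℂ q, ‖∑ m ∈ I, χ (m : ZMod q) * a m‖ ^ 2 : ℝ) : ℂ)‖ := by
    rw [Complex.norm_real, Real.norm_eq_abs, abs_of_nonneg]
    exact Finset.sum_nonneg fun _ _ => sq_nonneg _
  rw [e3, e1]
  obtain ⟨f, hf⟩ : ∃ f : ℕ → ℕ → ℝ, f = fun (m m' : ℕ) =>
    if (m' : ZMod q) = (m : ZMod q) then (q : ℝ) else 0 := ⟨_, rfl⟩
  have hf0 : ∀ m m', 0 ≤ f m m' := by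
    intro m m'
    rw [hf]
    dsimp only
    split_ifs
    · positivity
    · exact le_rfl
  have hfs : ∀ m m', f m m' = f m' m := by
    intro m m'
    rw [hf]
    dsimp only
    by_cases h : (m' : ZMod q) = (m : ZMod q)
    · rw [if_pos h, if_pos h.symm]
    · rw [if_neg h, if_neg fun h' => h h'.symm]
  have h1 : ‖∑ m ∈ I, ∑ m' ∈ I, (a m * conj (a m')) *
        ∑ χ : DirichletCharacter ℂ q, χ (m : ZMod q) * conj (χ (m' : ZMod q))‖ ≤
      ∑ m ∈ I, ∑ m' ∈ I, (1 / 2 * (‖a m‖ ^ 2 * f m m') + 1 / 2 * (‖a m'‖ ^ 2 * f m m')) := by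
    refine (norm_sum_le _ _).trans (Finset.sum_le_sum fun m _ => ?_)
    refine (norm_sum_le _ _).trans (Finset.sum_le_sum fun m' _ => ?_)
    rw [norm_mul, norm_mul, RCLike.norm_conj]
    have h2 : ‖∑ χ : DirichletCharacter ℂ q, χ (m : ZMod q) * conj (χ (m' : ZMod q))‖ ≤
        f m m' := by
      rw [hf]
      exact orth m m'
    have h3 : ‖a m‖ * ‖a m'‖ ≤ 1 / 2 * ‖a m‖ ^ 2 + 1 / 2 * ‖a m'‖ ^ 2 := by
      nlinarith [sq_nonneg (‖a m‖ - ‖a m'‖)]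
    calc ‖a m‖ * ‖a m'‖ *
          ‖∑ χ : DirichletCharacter ℂ q, χ (m : ZMod q) * conj (χ (m' : ZMod q))‖ ≤
        (‖a m‖ * ‖a m'‖) * f m m' := mul_le_mul_of_nonneg_left h2 (by positivity)
      _ ≤ (1 / 2 * ‖a m‖ ^ 2 + 1 / 2 * ‖a m'‖ ^ 2) * f m m' :=
        mul_le_mul_of_nonneg_right h3 (hf0 m m')
      _ = _ := by ring
  refine h1.trans ?_
  have h2 : ∑ m ∈ I, ∑ m' ∈ I, (1 / 2 * (‖a m‖ ^ 2 * f m m') + 1 / 2 * (‖a m'‖ ^ 2 * f m m')) =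
      ∑ m ∈ I, ∑ m' ∈ I, ‖a m‖ ^ 2 * f m m' := by
    have h3 : ∑ m ∈ I, ∑ m' ∈ I, 1 / 2 * (‖a m'‖ ^ 2 * f m m') =
        ∑ m ∈ I, ∑ m' ∈ I, 1 / 2 * (‖a m‖ ^ 2 * f m m') := by
      rw [Finset.sum_comm]
      refine Finset.sum_congr rfl fun m _ => Finset.sum_congr rfl fun m' _ => ?_
      rw [hfs]
    simp_rw [Finset.sum_add_distrib]
    rw [h3, ← Finset.sum_add_distrib]
    refine Finset.sum_congr rfl fun m _ => ?_
    rw [← Finset.sum_add_distrib]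
    refine Finset.sum_congr rfl fun m' _ => ?_
    ring
  rw [h2, Finset.mul_sum]
  refine Finset.sum_le_sum fun m hm => ?_
  rw [← Finset.mul_sum, mul_comm]
  apply mul_le_mul_of_nonneg_right _ (sq_nonneg _)
  have h3 : ∑ m' ∈ I, f m m' =
      (q : ℝ) * ((I.filter fun m' : ℕ => (m' : ZMod q) = (m : ZMod q)).card : ℝ) := by
    rw [hf]
    dsimp only
    rw [← Finset.sum_filter, Finset.sum_const, nsmul_eq_mul, mul_comm]
  rw [h3]
  exact hB m hm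

lemma card_class {q Y m : ℕ} {I : Finset ℕ} (hI : I ⊆ Icc 1 Y) :
    (I.filter fun m' : ℕ => (m' : ZMod q) = (m : ZMod q)).card ≤ Y / q + 1 := by
  rw [← Finset.card_range (Y / q + 1)]
  apply Finset.card_le_card_of_injOn (fun m' => m' / q)
  · intro m' hm'
    obtain ⟨h1, _⟩ := Finset.mem_filter.1 (Finset.mem_coe.1 hm')
    rw [Finset.mem_coe, Finset.mem_range, Nat.lt_succ_iff]
    exact Nat.div_le_div_right (Finset.mem_Icc.1 (hI h1)).2
  · intro x hx y hy hxy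
    obtain ⟨_, h1⟩ := Finset.mem_filter.1 (Finset.mem_coe.1 hx)
    obtain ⟨_, h2⟩ := Finset.mem_filter.1 (Finset.mem_coe.1 hy)
    have h3 : (x : ZMod q) = (y : ZMod q) := h1.trans h2.symm
    rw [ZMod.natCast_eq_natCast_iff] at h3
    have h4 : x % q = y % q := h3
    have hxy' : x / q = y / q := hxy
    rw [← Nat.div_add_mod x q, ← Nat.div_add_mod y q, hxy', h4]

/-- The second moment over the characters of level at most `Y`. -/
lemma second {S : Finset DI} {Y : ℕ} (h : PS S Y) (a : ℕ → ℂ) {I : Finset ℕ}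
    (hI : I ⊆ Icc 1 Y) :
    ∑ χ ∈ S, ‖∑ m ∈ I, psi χ m * a m‖ ^ 2 ≤ 2 * (Y : ℝ) ^ 2 * ∑ m ∈ I, ‖a m‖ ^ 2 := by
  classical
  have h1 : S ⊆ (Icc 1 Y).sigma fun q => (univ : Finset (DirichletCharacter ℂ q)) := by
    intro χ hχ
    rw [Finset.mem_sigma]
    exact ⟨Finset.mem_Icc.2 ⟨(h χ hχ).1, (h χ hχ).2.1⟩, mem_univ _⟩
  calc ∑ χ ∈ S, ‖∑ m ∈ I, psi χ m * a m‖ ^ 2 ≤
      ∑ χ ∈ (Icc 1 Y).sigma fun q => (univ : Finset (DirichletCharacter ℂ q)),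
        ‖∑ m ∈ I, psi χ m * a m‖ ^ 2 :=
        Finset.sum_le_sum_of_subset_of_nonneg h1 fun _ _ _ => sq_nonneg _
    _ = ∑ q ∈ Icc 1 Y, ∑ χ : DirichletCharacter ℂ q,
        ‖∑ m ∈ I, χ (m : ZMod q) * a m‖ ^ 2 := by
        rw [Finset.sum_sigma]
        rfl
    _ ≤ ∑ q ∈ Icc 1 Y, (2 * (Y : ℝ)) * ∑ m ∈ I, ‖a m‖ ^ 2 := by
        refine Finset.sum_le_sum fun q hq => ?_
        obtain ⟨hq1, hq2⟩ := Finset.mem_Icc.1 hq
        have : NeZero q := ⟨by omega⟩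
        apply second_q a I
        intro m _
        have e1 := card_class (q := q) (m := m) hI
        have e2 : q * (I.filter fun m' : ℕ => (m' : ZMod q) = (m : ZMod q)).card ≤ 2 * Y := by
          calc q * (I.filter fun m' : ℕ => (m' : ZMod q) = (m : ZMod q)).card ≤
              q * (Y / q + 1) := Nat.mul_le_mul_left q e1
            _ = q * (Y / q) + q := by ring
            _ ≤ Y + Y := Nat.add_le_add (Nat.mul_div_le Y q) hq2
            _ = 2 * Y := by ring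
        exact_mod_cast e2
    _ = _ := by
        rw [Finset.sum_const, Nat.card_Icc, Nat.add_sub_cancel, nsmul_eq_mul]
        ring

variable {c : ℕ → ℂ} {M : ℝ}

/-- The real part or the imaginary part of the terms. -/
noncomputable def xr (L : ℂ → ℝ) (c : ℕ → ℂ) (Y : ℕ) (χ : DI) (n : ℕ) : ℝ :=
  if n ∈ PR Y then L (psi χ n * (c n * Real.log n)) else 0

lemma IS_xr {L : ℂ →ₗ[ℝ] ℝ} (Y : ℕ) (χ : DI) (b n : ℕ) :
    IS (xr L c Y χ) b n = L (∑ p ∈ (Ico b (b + n)).filter (· ∈ PR Y),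
      psi χ p * (c p * Real.log p)) := by
  unfold IS xr
  rw [← Finset.sum_filter, map_sum]

lemma sum_IS (hc : ∀ p : ℕ, p.Prime → ‖c p‖ ≤ M) {L : ℂ →ₗ[ℝ] ℝ} (hL : ∀ z, |L z| ≤ ‖z‖)
    {S : Finset DI} {Y : ℕ} (h : PS S Y) (b n : ℕ) :
    ∑ χ ∈ S, IS (xr L c Y χ) b n ^ 2 ≤
      2 * (Y : ℝ) ^ 2 * (M ^ 2 * ∑ i ∈ Ico b (b + n), Real.log i ^ 2) := by
  have h1 : ∑ χ ∈ S, IS (xr L c Y χ) b n ^ 2 ≤ ∑ χ ∈ S,
      ‖∑ p ∈ (Ico b (b + n)).filter (· ∈ PR Y), psi χ p * (c p * Real.log p)‖ ^ 2 := by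
    refine Finset.sum_le_sum fun χ _ => ?_
    rw [IS_xr, ← sq_abs]
    exact pow_le_pow_left₀ (abs_nonneg _) (hL _) 2
  have hI : (Ico b (b + n)).filter (· ∈ PR Y) ⊆ Icc 1 Y := by
    intro p hp
    exact (Finset.mem_filter.1 (Finset.mem_filter.1 hp).2).1
  refine h1.trans ((second h (fun p => c p * Real.log p) hI).trans ?_)
  apply mul_le_mul_of_nonneg_left _ (by positivity)
  rw [Finset.mul_sum]
  calc ∑ p ∈ (Ico b (b + n)).filter (· ∈ PR Y), ‖c p * (Real.log p : ℂ)‖ ^ 2 ≤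
      ∑ p ∈ (Ico b (b + n)).filter (· ∈ PR Y), M ^ 2 * Real.log p ^ 2 := by
        refine Finset.sum_le_sum fun p hp => ?_
        have hp1 := (Finset.mem_filter.1 (Finset.mem_filter.1 hp).2).2
        rw [norm_mul, Complex.norm_real, Real.norm_eq_abs, abs_of_nonneg (log_nonneg' p), mul_pow]
        apply mul_le_mul_of_nonneg_right _ (sq_nonneg _)
        exact pow_le_pow_left₀ (norm_nonneg _) (hc p hp1) 2
    _ ≤ _ := Finset.sum_le_sum_of_subset_of_nonneg (Finset.filter_subset _ _)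
        fun _ _ _ => by positivity

lemma sum_RM_xr (hc : ∀ p : ℕ, p.Prime → ‖c p‖ ≤ M) {L : ℂ →ₗ[ℝ] ℝ} (hL : ∀ z, |L z| ≤ ‖z‖)
    {S : Finset DI} {Y : ℕ} (h : PS S Y) (j : ℕ) :
    ∑ χ ∈ S, RM (xr L c Y χ) (j + 1) 0 ≤
      4 * (Y : ℝ) ^ 2 * M ^ 2 * (((j : ℝ) + 2) ^ 4 * 2 ^ j) := by
  have h1 := sum_RM S (fun χ => xr L c Y χ)
    (fun b n => 2 * (Y : ℝ) ^ 2 * (M ^ 2 * ∑ i ∈ Ico b (b + n), Real.log i ^ 2))
    (fun b n => by positivity) ?_ (fun b n => sum_IS hc hL h b n) (j + 1) 0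
  · refine h1.trans ?_
    have h2 : ∑ i ∈ Ico (0 : ℕ) (0 + 2 ^ (j + 1)), Real.log i ^ 2 ≤
        2 ^ (j + 1) * ((j : ℝ) + 1) ^ 2 := by
      have h3 : ∀ i ∈ Ico (0 : ℕ) (0 + 2 ^ (j + 1)), Real.log i ^ 2 ≤ ((j : ℝ) + 1) ^ 2 := by
        intro i hi
        apply pow_le_pow_left₀ (log_nonneg' i)
        have h4 := (Finset.mem_Ico.1 hi).2
        rw [zero_add] at h4
        rcases Nat.eq_zero_or_pos i with h5 | h5
        · rw [h5, Nat.cast_zero, Real.log_zero]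
          positivity
        · have h6 : (i : ℝ) ≤ 2 ^ (j + 1) := by exact_mod_cast h4.le
          have h7 := Real.log_le_log (by exact_mod_cast h5) h6
          rw [Real.log_pow] at h7
          push_cast at h7
          have h8 : Real.log 2 ≤ 1 := by linarith [Real.log_two_lt_d9]
          have h9 : ((j : ℝ) + 1) * Real.log 2 ≤ ((j : ℝ) + 1) * 1 :=
            mul_le_mul_of_nonneg_left h8 (by positivity)
          linarith
      refine (Finset.sum_le_sum h3).trans ?_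
      rw [Finset.sum_const, Nat.card_Ico, nsmul_eq_mul, zero_add, Nat.sub_zero]
      push_cast
      exact le_rfl
    have h5 : ((j : ℝ) + 1) ^ 2 ≤ ((j : ℝ) + 2) ^ 2 :=
      pow_le_pow_left₀ (by positivity) (by linarith) 2
    push_cast
    calc ((j : ℝ) + 1 + 1) ^ 2 *
          (2 * (Y : ℝ) ^ 2 * (M ^ 2 * ∑ i ∈ Ico (0 : ℕ) (0 + 2 ^ (j + 1)), Real.log i ^ 2)) ≤
        ((j : ℝ) + 1 + 1) ^ 2 *
          (2 * (Y : ℝ) ^ 2 * (M ^ 2 * (2 ^ (j + 1) * ((j : ℝ) + 2) ^ 2))) := by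
          apply mul_le_mul_of_nonneg_left _ (by positivity)
          apply mul_le_mul_of_nonneg_left _ (by positivity)
          apply mul_le_mul_of_nonneg_left _ (by positivity)
          refine h2.trans ?_
          exact mul_le_mul_of_nonneg_left h5 (by positivity)
      _ = _ := by ring
  · intro b n m
    rw [← mul_add, ← mul_add, ← Finset.sum_Ico_consecutive _ (Nat.le_add_right b n)
      (show b + n ≤ b + (n + m) by omega), add_assoc b n m]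

open Classical in
lemma level (hc : ∀ p : ℕ, p.Prime → ‖c p‖ ≤ M) {L : ℂ →ₗ[ℝ] ℝ} (hL : ∀ z, |L z| ≤ ‖z‖)
    {ε : ℝ} (hε : 0 < ε) {S : Finset DI} {Y : ℕ} (h : PS S Y) (j : ℕ) :
    ((S.filter fun χ => ε ^ 2 / 2 * 4 ^ j < RM (xr L c Y χ) (j + 1) 0).card : ℝ) ≤
      8 * M ^ 2 / ε ^ 2 * (Y : ℝ) ^ 2 * (((j : ℝ) + 2) ^ 4 * (1 / 2) ^ j) := by
  have h1 := sum_RM_xr hc hL h j
  have h2 : ((S.filter fun χ => ε ^ 2 / 2 * 4 ^ j < RM (xr L c Y χ) (j + 1) 0).card : ℝ) *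
      (ε ^ 2 / 2 * 4 ^ j) ≤ ∑ χ ∈ S, RM (xr L c Y χ) (j + 1) 0 := by
    rw [← nsmul_eq_mul, ← Finset.sum_const]
    refine (Finset.sum_le_sum fun a ha => (Finset.mem_filter.1 ha).2.le).trans ?_
    exact Finset.sum_le_sum_of_subset_of_nonneg (Finset.filter_subset _ _)
      fun a _ _ => RM_nonneg _ _ _
  have h6 : (1 / 2 : ℝ) ^ j * 4 ^ j = 2 ^ j := by
    rw [← mul_pow]; norm_num
  have h4 : 4 * (Y : ℝ) ^ 2 * M ^ 2 * (((j : ℝ) + 2) ^ 4 * 2 ^ j) =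
      (8 * M ^ 2 / ε ^ 2 * (Y : ℝ) ^ 2 * (((j : ℝ) + 2) ^ 4 * (1 / 2) ^ j)) *
        (ε ^ 2 / 2 * 4 ^ j) := by
    rw [← h6]
    field_simp
    ring
  rw [h4] at h1
  exact le_of_mul_le_mul_right (h2.trans h1) (by positivity)

open Classical in
/-- The range of small scales. -/
theorem small (hM : 0 ≤ M) {ε : ℝ} (hε : 0 < ε) : ∃ C : ℝ, 0 < C ∧
    ∀ c : ℕ → ℂ, (∀ p : ℕ, p.Prime → ‖c p‖ ≤ M) →
      ∀ (S : Finset DI) (Y T₀ : ℕ), PS S Y → 2 ≤ T₀ →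
      ((S.filter fun χ => ∃ T : ℕ, T₀ ≤ T ∧ T ≤ Y ∧ ε * T < ‖FC psi c T χ‖).card : ℝ) ≤
        C * ((Y : ℝ) ^ 2 * Real.log T₀ ^ 4 / T₀) := by
  have hKS := KS_nonneg
  have hl2 : 0 < Real.log 2 := Real.log_pos (by norm_num)
  refine ⟨16 * M ^ 2 / ε ^ 2 * KS * (2 * (4 / Real.log 2) ^ 4) + 1, by positivity, ?_⟩
  intro c hc S Y T₀ h hT₀
  have hT0 : (0 : ℝ) < T₀ := by exact_mod_cast (by omega : 0 < T₀)
  have hlT : 0 < Real.log T₀ := Real.log_pos (by exact_mod_cast (by omega : 1 < T₀))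
  obtain ⟨re, hre⟩ : ∃ re : ℂ →ₗ[ℝ] ℝ, re = Complex.reLm := ⟨_, rfl⟩
  obtain ⟨im, him⟩ : ∃ im : ℂ →ₗ[ℝ] ℝ, im = Complex.imLm := ⟨_, rfl⟩
  have hre1 : ∀ z, |re z| ≤ ‖z‖ := by
    intro z
    rw [hre]
    exact Complex.abs_re_le_norm z
  have him1 : ∀ z, |im z| ≤ ‖z‖ := by
    intro z
    rw [him]
    exact Complex.abs_im_le_norm z
  -- the inclusion
  have hsub : (S.filter fun χ => ∃ T : ℕ, T₀ ≤ T ∧ T ≤ Y ∧ ε * T < ‖FC psi c T χ‖) ⊆
      (Icc (Nat.log 2 T₀) (Nat.log 2 Y)).biUnion fun j =>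
        (S.filter fun χ => ε ^ 2 / 2 * 4 ^ j < RM (xr re c Y χ) (j + 1) 0) ∪
        (S.filter fun χ => ε ^ 2 / 2 * 4 ^ j < RM (xr im c Y χ) (j + 1) 0) := by
    intro χ hχ
    obtain ⟨hx1, T, h1, h2, h3⟩ := Finset.mem_filter.1 hχ
    rw [Finset.mem_biUnion]
    refine ⟨Nat.log 2 T, ?_, ?_⟩
    · rw [Finset.mem_Icc]
      exact ⟨Nat.log_mono_right h1, Nat.log_mono_right h2⟩
    · have hT2 : 2 ≤ T := hT₀.trans h1
      have hT0' : (0 : ℝ) < T := by exact_mod_cast (by omega : 0 < T)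
      have h4 : T + 1 ≤ 2 ^ (Nat.log 2 T + 1) := Nat.lt_pow_succ_log_self (by norm_num) T
      have h5 : 2 ^ Nat.log 2 T ≤ T := Nat.pow_log_le_self 2 (by omega)
      have h6 := IS_le_RM (xr re c Y χ) (Nat.log 2 T + 1) 0 (T + 1) h4
      have h7 := IS_le_RM (xr im c Y χ) (Nat.log 2 T + 1) 0 (T + 1) h4
      have hset : (Ico 0 (0 + (T + 1))).filter (· ∈ PR Y) = PR T := by
        ext p
        unfold PR
        rw [Finset.mem_filter, Finset.mem_filter, Finset.mem_filter, Finset.mem_Ico,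
          Finset.mem_Icc, Finset.mem_Icc]
        constructor
        · rintro ⟨⟨_, a1⟩, ⟨a2, _⟩, a3⟩
          exact ⟨⟨a2, by omega⟩, a3⟩
        · rintro ⟨⟨a1, a2⟩, a3⟩
          exact ⟨⟨by omega, by omega⟩, ⟨a1, by omega⟩, a3⟩
      rw [IS_xr, hset] at h6 h7
      have h8 : ‖FC psi c T χ‖ ^ 2 = re (FC psi c T χ) ^ 2 + im (FC psi c T χ) ^ 2 := by
        rw [hre, him, Complex.reLm_coe, Complex.imLm_coe, ← Complex.normSq_eq_norm_sq,
          Complex.normSq_apply]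
        ring
      have h9 : (ε * T) ^ 2 < ‖FC psi c T χ‖ ^ 2 :=
        pow_lt_pow_left₀ h3 (by positivity) (by norm_num)
      have h10 : ε ^ 2 * 4 ^ Nat.log 2 T ≤ (ε * T) ^ 2 := by
        rw [mul_pow]
        apply mul_le_mul_of_nonneg_left _ (sq_nonneg ε)
        have h11 : ((2 : ℝ) ^ Nat.log 2 T) ≤ T := by exact_mod_cast h5
        calc (4 : ℝ) ^ Nat.log 2 T = ((2 : ℝ) ^ Nat.log 2 T) ^ 2 := by
              rw [← pow_mul, mul_comm, pow_mul]; norm_num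
          _ ≤ (T : ℝ) ^ 2 := pow_le_pow_left₀ (by positivity) h11 2
      have h6' : re (FC psi c T χ) ^ 2 ≤ RM (xr re c Y χ) (Nat.log 2 T + 1) 0 := h6
      have h7' : im (FC psi c T χ) ^ 2 ≤ RM (xr im c Y χ) (Nat.log 2 T + 1) 0 := h7
      rw [Finset.mem_union, Finset.mem_filter, Finset.mem_filter]
      rcases le_total (re (FC psi c T χ) ^ 2) (im (FC psi c T χ) ^ 2) with h12 | h12
      · right
        refine ⟨hx1, ?_⟩
        linarith
      · left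
        refine ⟨hx1, ?_⟩
        linarith
  have h1 : ((S.filter fun χ => ∃ T : ℕ, T₀ ≤ T ∧ T ≤ Y ∧ ε * T < ‖FC psi c T χ‖).card : ℝ) ≤
      ∑ j ∈ Icc (Nat.log 2 T₀) (Nat.log 2 Y),
        16 * M ^ 2 / ε ^ 2 * (Y : ℝ) ^ 2 * (((j : ℝ) + 2) ^ 4 * (1 / 2) ^ j) := by
    have e1 : ∀ j ∈ Icc (Nat.log 2 T₀) (Nat.log 2 Y),
        (((S.filter fun χ => ε ^ 2 / 2 * 4 ^ j < RM (xr re c Y χ) (j + 1) 0) ∪
        (S.filter fun χ => ε ^ 2 / 2 * 4 ^ j < RM (xr im c Y χ) (j + 1) 0)).card : ℝ) ≤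
        16 * M ^ 2 / ε ^ 2 * (Y : ℝ) ^ 2 * (((j : ℝ) + 2) ^ 4 * (1 / 2) ^ j) := by
      intro j _
      have e2 := level hc hre1 hε h j
      have e3 := level hc him1 hε h j
      have e4 : (((S.filter fun χ => ε ^ 2 / 2 * 4 ^ j < RM (xr re c Y χ) (j + 1) 0) ∪
        (S.filter fun χ => ε ^ 2 / 2 * 4 ^ j < RM (xr im c Y χ) (j + 1) 0)).card : ℝ) ≤
        ((S.filter fun χ => ε ^ 2 / 2 * 4 ^ j < RM (xr re c Y χ) (j + 1) 0).card : ℝ) +
        ((S.filter fun χ => ε ^ 2 / 2 * 4 ^ j < RM (xr im c Y χ) (j + 1) 0).card : ℝ) := by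
        exact_mod_cast Finset.card_union_le _ _
      have e5 : 16 * M ^ 2 / ε ^ 2 * (Y : ℝ) ^ 2 * (((j : ℝ) + 2) ^ 4 * (1 / 2) ^ j) =
        8 * M ^ 2 / ε ^ 2 * (Y : ℝ) ^ 2 * (((j : ℝ) + 2) ^ 4 * (1 / 2) ^ j) +
        8 * M ^ 2 / ε ^ 2 * (Y : ℝ) ^ 2 * (((j : ℝ) + 2) ^ 4 * (1 / 2) ^ j) := by ring
      rw [e5]
      linarith
    refine le_trans ?_ (Finset.sum_le_sum e1)
    exact_mod_cast (Finset.card_le_card hsub).trans Finset.card_biUnion_le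
  rw [← Finset.mul_sum] at h1
  refine h1.trans ?_
  have h2 := mul_le_mul_of_nonneg_left (sum_levels (Nat.log 2 T₀) (Nat.log 2 Y))
    (by positivity : 0 ≤ 16 * M ^ 2 / ε ^ 2 * (Y : ℝ) ^ 2)
  refine h2.trans ?_
  have h3 : (((Nat.log 2 T₀ : ℕ) : ℝ) + 2) ^ 4 ≤ (4 / Real.log 2 * Real.log T₀) ^ 4 := by
    apply pow_le_pow_left₀ (by positivity)
    have e1 : 2 ^ Nat.log 2 T₀ ≤ T₀ := Nat.pow_log_le_self 2 (by omega)
    have e2 : ((Nat.log 2 T₀ : ℕ) : ℝ) * Real.log 2 ≤ Real.log T₀ := by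
      rw [← Real.log_pow]
      exact Real.log_le_log (by positivity) (by exact_mod_cast e1)
    have e3 : Real.log 2 ≤ Real.log T₀ :=
      Real.log_le_log (by norm_num) (by exact_mod_cast hT₀)
    rw [div_mul_eq_mul_div, le_div_iff₀ hl2]
    nlinarith
  have h4 : ((1 / 2 : ℝ)) ^ Nat.log 2 T₀ ≤ 2 / T₀ := by
    have e1 : T₀ ≤ 2 ^ (Nat.log 2 T₀ + 1) := (Nat.lt_pow_succ_log_self (by norm_num) T₀).le
    have e2 : (T₀ : ℝ) ≤ 2 ^ (Nat.log 2 T₀ + 1) := by exact_mod_cast e1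
    rw [le_div_iff₀ hT0, one_div, inv_pow, inv_mul_le_iff₀ (by positivity)]
    rw [pow_succ] at e2
    exact e2
  calc 16 * M ^ 2 / ε ^ 2 * (Y : ℝ) ^ 2 * (KS * ((((Nat.log 2 T₀ : ℕ) : ℝ) + 2) ^ 4 *
        (1 / 2) ^ Nat.log 2 T₀)) ≤
      16 * M ^ 2 / ε ^ 2 * (Y : ℝ) ^ 2 *
        (KS * ((4 / Real.log 2 * Real.log T₀) ^ 4 * (2 / T₀))) := by
        apply mul_le_mul_of_nonneg_left _ (by positivity)
        apply mul_le_mul_of_nonneg_left _ hKS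
        exact mul_le_mul h3 h4 (by positivity) (by positivity)
    _ = 16 * M ^ 2 / ε ^ 2 * KS * (2 * (4 / Real.log 2) ^ 4) *
        ((Y : ℝ) ^ 2 * Real.log T₀ ^ 4 / T₀) := by
        ring
    _ ≤ _ := by
        apply mul_le_mul_of_nonneg_right _ (by positivity)
        linarith

end Pool.Agent.Helper29.DC
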